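import Pool.Agent.helper7.Ucode.Tail

set_option autoImplicit false

/-!
# Universal test families: basic notions
-/

noncomputable section

open scoped Classical

namespace Pool.Agent.helper7.Ucode

/-- The abstract property of being inside a subgroup, for positive words: of `P u`, `P v`,
`P (u ++ v)` any two imply the third. -/
structure Sat {α : Type} (P : List α → Prop) : Prop where
  nil : P []
  append : ∀ u v, P u → P v → P (u ++ v)
  left : ∀ u v, P u → P (u ++ v) → P v
  right : ∀ u v, P v → P (u ++ v) → P u

theorem Sat.flatMap {α β : Type} {P : List α → Prop} (h : Sat P) (y : β → List α) :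
    Sat (fun w : List β => P (w.flatMap y)) where
  nil := by rw [List.flatMap_nil]; exact h.nil
  append := by
    intro u v hu hv
    rw [List.flatMap_append]; exact h.append _ _ hu hv
  left := by
    intro u v hu hv
    rw [List.flatMap_append] at hv; exact h.left _ _ hu hv
  right := by
    intro u v hu hv
    rw [List.flatMap_append] at hv; exact h.right _ _ hu hv

theorem Sat.map {α β : Type} {P : List α → Prop} (h : Sat P) (g : β → α) :
    Sat (fun w : List β => P (w.map g)) where
  nil := h.nil
  append := by
    intro u v hu hv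
    rw [List.map_append]; exact h.append _ _ hu hv
  left := by
    intro u v hu hv
    rw [List.map_append] at hv; exact h.left _ _ hu hv
  right := by
    intro u v hu hv
    rw [List.map_append] at hv; exact h.right _ _ hu hv

/-- If all letters are inactive, the word is inactive. -/
theorem Sat.of_forall {α : Type} {P : List α → Prop} (h : Sat P) (w : List α)
    (hw : ∀ a ∈ w, P [a]) : P w := by
  induction w with
  | nil => exact h.nil
  | cons a w ih =>
    have h1 := h.append [a] w (hw a List.mem_cons_self)
      (ih fun b hb => hw b (List.mem_cons_of_mem a hb))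
    exact h1

/-- A word with exactly one active letter is active. -/
theorem Sat.active_of_unique {α : Type} {P : List α → Prop} (h : Sat P) (u v : List α) (a : α)
    (hu : ∀ b ∈ u, P [b]) (hv : ∀ b ∈ v, P [b]) (ha : ¬ P [a]) : ¬ P (u ++ a :: v) := by
  intro hP
  have h1 : P (a :: v) := h.left u _ (h.of_forall u hu) hP
  exact ha (h.right [a] v (h.of_forall v hv) h1)

/-- The number of active members of a family of words. -/
def act {α ι : Type} [Fintype ι] (P : List α → Prop) (v : ι → List α) : ℕ :=
  ∑ i, if P (v i) then 0 else 1

theorem act_le_card {α ι : Type} [Fintype ι] (P : List α → Prop) (v : ι → List α) :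
    act P v ≤ Fintype.card ι := by
  calc act P v ≤ ∑ _i : ι, 1 := Finset.sum_le_sum fun i _ => by split_ifs <;> omega
    _ = Fintype.card ι := by simp

theorem act_eq_cnt {α ι : Type} [Fintype ι] (P : List α → Prop) (v : ι → List α) :
    act P v = cnt fun i => ¬ P (v i) := by
  rw [act, cnt, Finset.card_filter]
  refine Finset.sum_congr rfl fun i _ => ?_
  by_cases h : P (v i) <;> simp [h]

/-- A promise code: a nonempty family of at most `n` words of length at most `ℓ` over the
alphabet `α` of which at least a fraction `δ` is active whenever at least `x` letters are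
active. -/
def Code (α : Type) [Fintype α] (x : ℝ) (n ℓ : ℕ) (δ : ℝ) : Prop :=
  ∃ (ι : Type) (_ : Fintype ι) (_ : Nonempty ι) (v : ι → List α),
    Fintype.card ι ≤ n ∧ (∀ i, (v i).length ≤ ℓ) ∧
    ∀ P : List α → Prop, Sat P → x ≤ (act P (fun a : α => [a]) : ℝ) →
      δ * (Fintype.card ι : ℝ) ≤ act P v

theorem Code.mono {α : Type} [Fintype α] {x x' : ℝ} {n n' ℓ ℓ' : ℕ} {δ δ' : ℝ}
    (h : Code α x n ℓ δ) (hx : x ≤ x') (hn : n ≤ n') (hℓ : ℓ ≤ ℓ') (hδ : δ' ≤ δ) :
    Code α x' n' ℓ' δ' := by
  obtain ⟨ι, i1, i2, v, h1, h2, h3⟩ := h
  refine ⟨ι, i1, i2, v, h1.trans hn, fun i => (h2 i).trans hℓ, fun P hP hx' => ?_⟩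
  refine le_trans ?_ (h3 P hP (hx.trans hx'))
  exact mul_le_mul_of_nonneg_right hδ (Nat.cast_nonneg _)

theorem length_flatMap_le {α β : Type} (y : β → List α) (L : ℕ) (hy : ∀ b, (y b).length ≤ L)
    (w : List β) : (w.flatMap y).length ≤ L * w.length := by
  induction w with
  | nil => simp
  | cons b w ih =>
    rw [List.flatMap_cons, List.length_append, List.length_cons, mul_add, mul_one]
    have := hy b
    omega

/-- Composition of a family `y` with a code whose letters are the members of the family. -/
theorem Code.comp {α β : Type} [Fintype α] [Fintype β] {x x' : ℝ} {n ℓ L : ℕ} {δ : ℝ}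
    (y : β → List α) (hL : ∀ b, (y b).length ≤ L)
    (hy : ∀ P : List α → Prop, Sat P → x ≤ (act P (fun a : α => [a]) : ℝ) → x' ≤ (act P y : ℝ))
    (h : Code β x' n ℓ δ) : Code α x n (L * ℓ) δ := by
  obtain ⟨ι, i1, i2, v, h1, h2, h3⟩ := h
  refine ⟨ι, i1, i2, fun i => (v i).flatMap y, h1, fun i => ?_, fun P hP hx => ?_⟩
  · exact (length_flatMap_le y L hL _).trans (Nat.mul_le_mul_left L (h2 i))
  · refine h3 (fun w => P (w.flatMap y)) (hP.flatMap y) ?_
    refine (hy P hP hx).trans (le_of_eq ?_)
    simp [act]

/-- Transport of a code with promise one along a surjection. -/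
theorem Code.of_surjective {α β : Type} [Fintype α] [Fintype β] {n ℓ : ℕ} {δ : ℝ}
    (g : α → β) (hg : Function.Surjective g) (h : Code α 1 n ℓ δ) : Code β 1 n ℓ δ := by
  have h' : Code β 1 n (1 * ℓ) δ := by
    refine Code.comp (x := 1) (x' := 1) (fun a : α => [g a]) (fun b => le_rfl) ?_ h
    intro P hP hx
    have hx' : 1 ≤ act P (fun b : β => [b]) := by exact_mod_cast hx
    rw [act_eq_cnt, cnt_pos] at hx'
    obtain ⟨b, hb⟩ := hx'
    obtain ⟨a, rfl⟩ := hg b
    have : 1 ≤ act P (fun a : α => [g a]) := by
      rw [act_eq_cnt, cnt_pos]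
      exact ⟨a, hb⟩
    exact_mod_cast this
  rwa [one_mul] at h'

/-- All subproducts: a family of `2 ^ s` words over `s` letters, half of which are active as soon
as some letter is active. -/
theorem subset_code (s : ℕ) : Code (Fin s) 1 (2 ^ s) s (1 / 2) := by
  induction s with
  | zero =>
    refine ⟨Unit, inferInstance, inferInstance, fun _ => [], by simp, by simp, ?_⟩
    intro P hP hx
    exfalso
    have : act P (fun a : Fin 0 => [a]) = 0 := by simp [act]
    rw [this] at hx
    norm_num at hx
  | succ s ih =>
    obtain ⟨ι, i1, i2, v, h1, h2, h3⟩ := ih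
    let v' : ι → List (Fin (s + 1)) := fun i => (v i).map Fin.succ
    refine ⟨Bool × ι, inferInstance, inferInstance,
      fun x => (if x.1 then [0] else []) ++ v' x.2, ?_, ?_, ?_⟩
    · rw [Fintype.card_prod, Fintype.card_bool, pow_succ']
      exact Nat.mul_le_mul_left 2 h1
    · rintro ⟨b, i⟩
      have := h2 i
      cases b <;> simp [v'] <;> omega
    · intro P hP hx
      have hact : act P (fun x : Bool × ι => (if x.1 then [0] else []) ++ v' x.2) =
          ∑ i, ((if P ([0] ++ v' i) then 0 else 1) + (if P (v' i) then 0 else 1)) := by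
        rw [act, Fintype.sum_prod_type_right]
        refine Finset.sum_congr rfl fun i _ => ?_
        simp
      have hcard : (Fintype.card (Bool × ι) : ℝ) = 2 * Fintype.card ι := by
        rw [Fintype.card_prod, Fintype.card_bool]; push_cast; ring
      rw [hact, hcard]
      by_cases h0 : P [0]
      · have hiff : ∀ i, P ([0] ++ v' i) ↔ P (v' i) := fun i =>
          ⟨hP.left _ _ h0, hP.append _ _ h0⟩
        have hx' : (1 : ℝ) ≤ act (fun w : List (Fin s) => P (w.map Fin.succ))
            (fun a : Fin s => [a]) := by
          have e : act P (fun a : Fin (s + 1) => [a]) =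
              act (fun w : List (Fin s) => P (w.map Fin.succ)) (fun a : Fin s => [a]) := by
            rw [act, Fin.sum_univ_succ, if_pos h0, zero_add]
            rfl
          rw [← e]; exact hx
        have h4 := h3 _ (hP.map Fin.succ) hx'
        have h5 : ∑ i, ((if P ([0] ++ v' i) then 0 else 1) + (if P (v' i) then 0 else 1)) =
            2 * act (fun w : List (Fin s) => P (w.map Fin.succ)) v := by
          rw [act, Finset.mul_sum]
          refine Finset.sum_congr rfl fun i _ => ?_
          by_cases hi : P (v' i)
          · rw [if_pos ((hiff i).2 hi), if_pos hi]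
            rfl
          · rw [if_neg (fun h => hi ((hiff i).1 h)), if_neg hi]
            rfl
        rw [h5]; push_cast; linarith
      · have h5 : Fintype.card ι ≤
            ∑ i, ((if P ([0] ++ v' i) then 0 else 1) + (if P (v' i) then 0 else 1)) := by
          calc Fintype.card ι = ∑ _i : ι, 1 := by simp
            _ ≤ _ := by
              refine Finset.sum_le_sum fun i _ => ?_
              by_cases hi : P (v' i)
              · rw [if_neg (fun h => h0 (hP.right _ _ hi h))]; omega
              · rw [if_neg hi]; omega
        have h6 : (Fintype.card ι : ℝ) ≤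
            ((∑ i, ((if P ([0] ++ v' i) then 0 else 1) + (if P (v' i) then 0 else 1)) : ℕ) : ℝ) := by
          exact_mod_cast h5
        linarith

end Pool.Agent.helper7.Ucode
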