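import Mathlib

set_option autoImplicit false

/-!
# First-moment existence lemmas
-/

noncomputable section

open scoped Classical

namespace Pool.Agent.helper7.Ucode

/-- The number of elements satisfying a predicate. -/
def cnt {I : Type} [Fintype I] (p : I → Prop) : ℕ := (Finset.univ.filter p).card

theorem cnt_eq {I : Type} [Fintype I] (p : I → Prop) [DecidablePred p] :
    cnt p = (Finset.univ.filter p).card := by
  rw [cnt]
  congr

theorem cnt_le_card {I : Type} [Fintype I] (p : I → Prop) : cnt p ≤ Fintype.card I :=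
  Finset.card_le_univ _

theorem cnt_mono {I : Type} [Fintype I] {p q : I → Prop} (h : ∀ i, p i → q i) :
    cnt p ≤ cnt q := by
  rw [cnt, cnt]
  refine Finset.card_le_card fun i hi => ?_
  rw [Finset.mem_filter] at hi ⊢
  exact ⟨hi.1, h i hi.2⟩

theorem cnt_congr {I : Type} [Fintype I] {p q : I → Prop} (h : ∀ i, p i ↔ q i) :
    cnt p = cnt q :=
  le_antisymm (cnt_mono fun i => (h i).1) (cnt_mono fun i => (h i).2)

theorem cnt_add_cnt_not {I : Type} [Fintype I] (p : I → Prop) :
    cnt p + cnt (fun i => ¬ p i) = Fintype.card I := by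
  rw [cnt, cnt, Finset.card_filter_add_card_filter_not, Finset.card_univ]

theorem cnt_pos {I : Type} [Fintype I] {p : I → Prop} : 1 ≤ cnt p ↔ ∃ i, p i := by
  rw [cnt, Finset.one_le_card]
  constructor
  · rintro ⟨i, hi⟩
    exact ⟨i, (Finset.mem_filter.1 hi).2⟩
  · rintro ⟨i, hi⟩
    exact ⟨i, Finset.mem_filter.2 ⟨Finset.mem_univ _, hi⟩⟩

theorem cnt_mem {I : Type} [Fintype I] (s : Finset I) : cnt (fun i => i ∈ s) = s.card := by
  rw [cnt_eq]
  congr 1
  ext a; simp

/-- First moment method: if the total expected weight is less than one, some point has all its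
weights less than one. -/
theorem exists_good {ε T : Type} [Fintype T] (E : Finset ε) (F : ε → T → ℝ)
    (hF : ∀ e τ, 0 ≤ F e τ) (U : ε → ℝ) (hU : ∀ e ∈ E, ∑ τ, F e τ ≤ U e)
    (h : ∑ e ∈ E, U e < Fintype.card T) : ∃ τ, ∀ e ∈ E, F e τ < 1 := by
  by_contra hcon
  push Not at hcon
  have h1 : (Fintype.card T : ℝ) ≤ ∑ τ : T, ∑ e ∈ E, F e τ := by
    calc (Fintype.card T : ℝ) = ∑ _τ : T, (1 : ℝ) := by simp
      _ ≤ _ := by
        refine Finset.sum_le_sum fun τ _ => ?_
        obtain ⟨e, he, h1⟩ := hcon τ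
        exact h1.trans (Finset.single_le_sum (f := fun e => F e τ) (fun e _ => hF e τ) he)
  rw [Finset.sum_comm] at h1
  have h2 := Finset.sum_le_sum hU
  linarith

/-- The generating function of the number of positions at which a function takes a value in a
prescribed set. -/
theorem sum_pow_count {I K : Type} [Fintype I] [Fintype K] (B : I → Finset K) (z : ℝ) :
    ∑ τ : I → K, z ^ cnt (fun i => τ i ∈ B i) =
      ∏ i, ((Fintype.card K : ℝ) - (B i).card + z * (B i).card) := by
  have h1 : ∀ i, (∑ k : K, if k ∈ B i then z else 1) =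
      (Fintype.card K : ℝ) - (B i).card + z * (B i).card := by
    intro i
    have h2 : ∀ k : K, (if k ∈ B i then z else 1) = 1 + (z - 1) * (if k ∈ B i then 1 else 0) := by
      intro k
      by_cases hk : k ∈ B i <;> simp [hk]
    rw [Finset.sum_congr rfl fun k _ => h2 k, Finset.sum_add_distrib, ← Finset.mul_sum,
      Finset.sum_boole]
    simp
    ring
  rw [← Finset.prod_congr rfl fun i _ => h1 i, Finset.prod_univ_sum, Fintype.piFinset_univ]
  refine Finset.sum_congr rfl fun τ _ => ?_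
  rw [cnt_eq, Finset.prod_ite, Finset.prod_const, Finset.prod_const_one, mul_one]

/-- Lower tail estimate, existence form. -/
theorem lower_tail {ε I K : Type} [Fintype I] [Fintype K] [Nonempty K] (E : Finset ε)
    (B : ε → I → Finset K) (η μ : ℝ) (h0 : 0 < η) (h1 : η < 1) (hμ : 0 ≤ μ)
    (hB : ∀ e ∈ E, μ * Fintype.card K ≤ ∑ i, ((B e i).card : ℝ))
    (hE : (E.card : ℝ) * Real.exp (-(η ^ 2 * μ / 2)) < 1) :
    ∃ τ : I → K, ∀ e ∈ E,
      (1 - η) * μ ≤ (cnt (fun i => τ i ∈ B e i) : ℝ) := by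
  have hz : 0 < 1 - η := by linarith
  have hz1 : 1 - η < 1 := by linarith
  set z : ℝ := 1 - η with hzdef
  set c : ℝ := z * μ with hc
  have hK : 0 < (Fintype.card K : ℝ) := by exact_mod_cast Fintype.card_pos
  -- logarithmic inequality
  have hlog : (z ^ 2 - 1) / 2 ≤ z * Real.log z := by
    have h2 : 0 ≤ - Real.log z := by
      have := Real.log_nonpos hz.le hz1.le
      linarith
    have h3 := Real.self_le_sinh_iff.2 h2
    rw [Real.sinh_neg, Real.sinh_log hz] at h3
    have h4 : (z - z⁻¹) / 2 ≤ Real.log z := by linarith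
    calc (z ^ 2 - 1) / 2 = z * ((z - z⁻¹) / 2) := by field_simp
      _ ≤ _ := mul_le_mul_of_nonneg_left h4 hz.le
  have key : ∀ e ∈ E, ∑ τ : I → K,
      z ^ cnt (fun i => τ i ∈ B e i) / z ^ c ≤
      (Fintype.card K : ℝ) ^ Fintype.card I * Real.exp (-(η ^ 2 * μ / 2)) := by
    intro e he
    rw [← Finset.sum_div, sum_pow_count, div_le_iff₀ (Real.rpow_pos_of_pos hz c)]
    have h2 : ∏ i, ((Fintype.card K : ℝ) - (B e i).card + z * (B e i).card) ≤
        ∏ i, ((Fintype.card K : ℝ) * Real.exp (-(η * ((B e i).card / Fintype.card K)))) := by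
      refine Finset.prod_le_prod (fun i _ => ?_) fun i _ => ?_
      · have : ((B e i).card : ℝ) ≤ Fintype.card K := by exact_mod_cast Finset.card_le_univ _
        have h3 : 0 ≤ z * ((B e i).card : ℝ) := by positivity
        linarith
      · have h3 := Real.add_one_le_exp (-(η * (((B e i).card : ℝ) / Fintype.card K)))
        calc (Fintype.card K : ℝ) - (B e i).card + z * (B e i).card
            = Fintype.card K * (-(η * (((B e i).card : ℝ) / Fintype.card K)) + 1) := by
              rw [hzdef]; field_simp; ring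
          _ ≤ _ := mul_le_mul_of_nonneg_left h3 hK.le
    refine h2.trans ?_
    rw [Finset.prod_mul_distrib, Finset.prod_const, Finset.card_univ, ← Real.exp_sum, mul_assoc]
    refine mul_le_mul_of_nonneg_left ?_ (by positivity)
    rw [Real.rpow_def_of_pos hz, ← Real.exp_add]
    refine Real.exp_le_exp.2 ?_
    rw [Finset.sum_neg_distrib, ← Finset.mul_sum, ← Finset.sum_div]
    have h4 : μ ≤ (∑ i, ((B e i).card : ℝ)) / Fintype.card K := by
      rw [le_div_iff₀ hK]; exact hB e he
    have h5 : η * μ ≤ η * ((∑ i, ((B e i).card : ℝ)) / Fintype.card K) :=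
      mul_le_mul_of_nonneg_left h4 h0.le
    have h6 : μ * ((z ^ 2 - 1) / 2) ≤ μ * (z * Real.log z) := mul_le_mul_of_nonneg_left hlog hμ
    rw [hc]
    have h7 : μ * ((z ^ 2 - 1) / 2) = -(η * μ) + η ^ 2 * μ / 2 := by rw [hzdef]; ring
    nlinarith
  obtain ⟨τ, hτ⟩ := exists_good E
    (fun e (τ : I → K) => z ^ cnt (fun i => τ i ∈ B e i) / z ^ c)
    (fun e τ => by positivity)
    (fun _ => (Fintype.card K : ℝ) ^ Fintype.card I * Real.exp (-(η ^ 2 * μ / 2))) key (by
      rw [Finset.sum_const, nsmul_eq_mul, Fintype.card_fun, Nat.cast_pow]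
      have h2 : 0 < (Fintype.card K : ℝ) ^ Fintype.card I := by positivity
      calc (E.card : ℝ) * ((Fintype.card K : ℝ) ^ Fintype.card I * Real.exp (-(η ^ 2 * μ / 2)))
          = (Fintype.card K : ℝ) ^ Fintype.card I *
            ((E.card : ℝ) * Real.exp (-(η ^ 2 * μ / 2))) := by ring
        _ < (Fintype.card K : ℝ) ^ Fintype.card I * 1 := mul_lt_mul_of_pos_left hE h2
        _ = _ := mul_one _)
  refine ⟨τ, fun e he => ?_⟩
  have h2 := hτ e he
  by_contra hcon
  push Not at hcon
  rw [div_lt_one (Real.rpow_pos_of_pos hz c), ← Real.rpow_natCast] at h2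
  have h3 := (Real.rpow_lt_rpow_left_iff_of_base_lt_one hz hz1).1 h2
  linarith

/-- The hitting lemma: there are `N = card α` tuples of length `s ≥ (7 / 5) D / ε` such that every
set of density at least `1 / D` is hit by all but at most a fraction `ε` of them. -/
theorem hit {α : Type} [Fintype α] [Nonempty α] (D ε : ℝ) (s : ℕ) (hD : 0 < D)
    (hs : 7 / 5 * D ≤ ε * s) :
    ∃ Γ : α → Fin s → α, ∀ X : Finset α, (Fintype.card α : ℝ) ≤ D * X.card →
      (1 - ε) * Fintype.card α ≤
        (cnt (fun i => ∃ j, Γ i j ∈ X) : ℝ) := by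
  set N : ℕ := Fintype.card α with hN
  have hNpos : 0 < N := Fintype.card_pos
  have hNpos' : (0 : ℝ) < N := by exact_mod_cast hNpos
  set z : ℝ := Real.exp (s / D) with hz
  have hzpos : 0 < z := Real.exp_pos _
  have hz1 : 1 ≤ z := by
    rw [hz]; exact Real.one_le_exp (by positivity)
  set E : Finset (Finset α) := Finset.univ.filter fun X => (N : ℝ) ≤ D * X.card with hE
  let B : Finset α → α → Finset (Fin s → α) := fun X _ => Fintype.piFinset fun _ => Xᶜ
  have hKcard : (Fintype.card (Fin s → α) : ℝ) = (N : ℝ) ^ s := by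
    rw [Fintype.card_fun, Fintype.card_fin]; push_cast; rfl
  have hBcard : ∀ X ∈ E, ∀ i, z * ((B X i).card : ℝ) ≤ (N : ℝ) ^ s := by
    intro X hX i
    rw [hE, Finset.mem_filter] at hX
    have h1 : ((B X i).card : ℝ) = ((N : ℝ) - X.card) ^ s := by
      simp only [B]
      rw [Fintype.card_piFinset, Finset.prod_const, Finset.card_univ, Fintype.card_fin,
        Finset.card_compl, Nat.cast_pow, Nat.cast_sub (Finset.card_le_univ X)]
    have h2 : (N : ℝ) - X.card ≤ N * Real.exp (-(1 / D)) := by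
      have h3 := Real.add_one_le_exp (-(1 / D))
      have h4 : (N : ℝ) / D ≤ X.card := by
        rw [div_le_iff₀ hD]; linarith [hX.2]
      calc (N : ℝ) - X.card ≤ N - N / D := by linarith
        _ = N * (-(1 / D) + 1) := by ring
        _ ≤ _ := mul_le_mul_of_nonneg_left h3 hNpos'.le
    have h5 : 0 ≤ (N : ℝ) - X.card := by
      have : (X.card : ℝ) ≤ N := by exact_mod_cast Finset.card_le_univ X
      linarith
    rw [h1]
    calc z * ((N : ℝ) - X.card) ^ s ≤ z * (N * Real.exp (-(1 / D))) ^ s := by gcongr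
      _ = (N : ℝ) ^ s * (z * Real.exp (-(1 / D)) ^ s) := by rw [mul_pow]; ring
      _ = (N : ℝ) ^ s := by
        rw [← Real.exp_nat_mul, hz, ← Real.exp_add]
        have : (s : ℝ) / D + s * -(1 / D) = 0 := by ring
        rw [this, Real.exp_zero, mul_one]
  have key : ∀ X ∈ E, ∑ τ : α → (Fin s → α),
      z ^ cnt (fun i => τ i ∈ B X i) / z ^ (ε * (N : ℝ)) ≤
      ((N : ℝ) ^ s) ^ N * (2 ^ N / z ^ (ε * (N : ℝ))) := by
    intro X hX
    rw [← Finset.sum_div, sum_pow_count, ← mul_div_assoc]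
    refine div_le_div_of_nonneg_right ?_ (Real.rpow_nonneg hzpos.le _)
    calc ∏ i, ((Fintype.card (Fin s → α) : ℝ) - (B X i).card + z * (B X i).card)
        ≤ ∏ _i : α, ((N : ℝ) ^ s * 2) := by
          refine Finset.prod_le_prod (fun i _ => ?_) fun i _ => ?_
          · have : ((B X i).card : ℝ) ≤ Fintype.card (Fin s → α) := by
              exact_mod_cast Finset.card_le_univ _
            have h3 : 0 ≤ z * ((B X i).card : ℝ) := by positivity
            linarith
          · have := hBcard X hX i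
            have h3 : (0 : ℝ) ≤ (B X i).card := Nat.cast_nonneg _
            rw [hKcard]
            linarith
      _ = _ := by rw [Finset.prod_const, Finset.card_univ, mul_pow]
  have hfinal : (2 : ℝ) ^ N * (2 ^ N / z ^ (ε * (N : ℝ))) < 1 := by
    have h1 : (0 : ℝ) < z ^ (ε * (N : ℝ)) := Real.rpow_pos_of_pos hzpos _
    rw [← mul_div_assoc, div_lt_one h1, ← mul_pow, hz, ← Real.exp_mul]
    have h4 : (4 : ℝ) < Real.exp (7 / 5) := by
      have h5 : Real.exp (7 / 5) ^ 5 = Real.exp 1 ^ 7 := by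
        rw [← Real.exp_nat_mul, ← Real.exp_nat_mul]; norm_num
      have h6 : (2.718 : ℝ) < Real.exp 1 := by
        have := Real.exp_one_gt_d9
        linarith
      have h7 : (4 : ℝ) ^ 5 < Real.exp (7 / 5) ^ 5 := by
        rw [h5]
        calc (4 : ℝ) ^ 5 < 2.718 ^ 7 := by norm_num
          _ < Real.exp 1 ^ 7 := by gcongr
      exact lt_of_pow_lt_pow_left₀ 5 (Real.exp_pos _).le h7
    calc ((2 : ℝ) * 2) ^ N = 4 ^ N := by norm_num
      _ < Real.exp (7 / 5) ^ N := by gcongr
      _ = Real.exp (N * (7 / 5)) := by rw [← Real.exp_nat_mul]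
      _ ≤ Real.exp (s / D * (ε * N)) := by
        refine Real.exp_le_exp.2 ?_
        have h8 : (7 / 5 : ℝ) ≤ ε * s / D := by rw [le_div_iff₀ hD]; exact hs
        have h9 : (s : ℝ) / D * (ε * N) = N * (ε * s / D) := by ring
        rw [h9]
        exact mul_le_mul_of_nonneg_left h8 hNpos'.le
  obtain ⟨Γ, hΓ⟩ := exists_good E
    (fun X (τ : α → (Fin s → α)) =>
      z ^ cnt (fun i => τ i ∈ B X i) / z ^ (ε * (N : ℝ)))
    (fun e τ => by positivity)
    (fun _ => ((N : ℝ) ^ s) ^ N * (2 ^ N / z ^ (ε * (N : ℝ)))) key (by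
      rw [Finset.sum_const, nsmul_eq_mul, Fintype.card_fun, Nat.cast_pow, hKcard]
      have hEcard : (E.card : ℝ) ≤ 2 ^ N := by
        have : E.card ≤ 2 ^ N := by
          rw [hN, ← Fintype.card_finset]; exact Finset.card_le_univ _
        exact_mod_cast this
      have h2 : 0 < ((N : ℝ) ^ s) ^ N := by positivity
      have h3 : 0 < (2 ^ N / z ^ (ε * (N : ℝ))) := by positivity
      calc (E.card : ℝ) * (((N : ℝ) ^ s) ^ N * (2 ^ N / z ^ (ε * (N : ℝ))))
          ≤ 2 ^ N * (((N : ℝ) ^ s) ^ N * (2 ^ N / z ^ (ε * (N : ℝ)))) := by gcongr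
        _ = ((N : ℝ) ^ s) ^ N * (2 ^ N * (2 ^ N / z ^ (ε * (N : ℝ)))) := by ring
        _ < ((N : ℝ) ^ s) ^ N * 1 := mul_lt_mul_of_pos_left hfinal h2
        _ = _ := mul_one _)
  refine ⟨Γ, fun X hX => ?_⟩
  have hXE : X ∈ E := by rw [hE, Finset.mem_filter]; exact ⟨Finset.mem_univ _, hX⟩
  have h2 := hΓ X hXE
  rw [div_lt_one (Real.rpow_pos_of_pos hzpos _), ← Real.rpow_natCast] at h2
  have h3 : (cnt (fun i => Γ i ∈ B X i) : ℝ) ≤ ε * N := by
    by_contra hcon
    push Not at hcon
    exact absurd (Real.rpow_le_rpow_of_exponent_le hz1 hcon.le) (not_le.2 h2)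
  have h4 : cnt (fun i => ∃ j, Γ i j ∈ X) + cnt (fun i => Γ i ∈ B X i) = N := by
    have h5 : cnt (fun i => Γ i ∈ B X i) = cnt (fun i => ¬ ∃ j, Γ i j ∈ X) := by
      refine cnt_congr fun i => ?_
      simp [B, Fintype.mem_piFinset]
    rw [h5, cnt_add_cnt_not]
  have h6 : (cnt (fun i => ∃ j, Γ i j ∈ X) : ℝ) + cnt (fun i => Γ i ∈ B X i) = N := by
    exact_mod_cast h4
  linarith

end Pool.Agent.helper7.Ucode
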