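import Pool.Agent.helper7.Ucode.Basic
import Pool.Agent.helper7.Ucode.Tail

set_option autoImplicit false

/-!
# Left-regular expanders and spreading words
-/

noncomputable section

open scoped Classical

namespace Pool.Agent.helper7.Ucode

/-- The number of values taken by `g` on `Y`. -/
def img {I K : Type} [Fintype K] (g : I → K) (Y : Finset I) : ℕ :=
  cnt fun r => ∃ p ∈ Y, g p = r

theorem img_insert {I K : Type} [DecidableEq I] [Fintype K] (g : I → K) (y : I) (Y : Finset I) :
    img g (insert y Y) = img g Y + if ∃ p ∈ Y, g p = g y then 0 else 1 := by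
  rw [img, img]
  by_cases h : ∃ p ∈ Y, g p = g y
  · rw [if_pos h, add_zero]
    refine cnt_congr fun r => ?_
    rw [Finset.exists_mem_insert]
    constructor
    · rintro (h1 | h1)
      · rw [← h1]; exact h
      · exact h1
    · exact fun h1 => Or.inr h1
  · rw [if_neg h, cnt_eq, cnt_eq]
    have : (Finset.univ.filter fun r => ∃ p ∈ insert y Y, g p = r) =
        insert (g y) (Finset.univ.filter fun r => ∃ p ∈ Y, g p = r) := by
      ext r
      rw [Finset.mem_filter, Finset.mem_insert, Finset.mem_filter, Finset.exists_mem_insert]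
      simp only [Finset.mem_univ, true_and]
      constructor
      · rintro (h1 | h1)
        · exact Or.inl h1.symm
        · exact Or.inr h1
      · rintro (h1 | h1)
        · exact Or.inl h1.symm
        · exact Or.inr h1
    rw [this, Finset.card_insert_of_notMem]
    rw [Finset.mem_filter]
    exact fun h1 => h h1.2

theorem img_le {I K : Type} [Fintype K] (g : I → K) (Y : Finset I) : img g Y ≤ Y.card := by
  induction Y using Finset.induction_on with
  | empty => simp [img, cnt]
  | insert y Y hy ih =>
    rw [img_insert, Finset.card_insert_of_notMem hy]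
    split_ifs <;> omega

theorem img_update {I K : Type} [DecidableEq I] [Fintype K] (g : I → K) (y : I) (c : K) (Y : Finset I)
    (hy : y ∉ Y) : img (Function.update g y c) Y = img g Y := by
  refine cnt_congr fun r => ?_
  constructor
  · rintro ⟨p, hp, h⟩
    have : p ≠ y := by rintro rfl; exact hy hp
    rw [Function.update_of_ne this] at h
    exact ⟨p, hp, h⟩
  · rintro ⟨p, hp, h⟩
    have : p ≠ y := by rintro rfl; exact hy hp
    exact ⟨p, hp, by rw [Function.update_of_ne this]; exact h⟩

theorem avg {I K : Type} [DecidableEq I] [Fintype I] [Fintype K] (y : I) (G : (I → K) → K → ℝ)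
    (hG : ∀ g c c', G (Function.update g y c) c' = G g c') :
    (Fintype.card K : ℝ) * ∑ g : I → K, G g (g y) = ∑ g : I → K, ∑ c, G g c := by
  let σ : (I → K) × K → (I → K) × K := fun q => (Function.update q.1 y q.2, q.1 y)
  have hσ : Function.Involutive σ := by
    rintro ⟨g, c⟩
    simp only [σ, Function.update_idem, Function.update_self, Function.update_eq_self]
  have h1 : ∑ q : (I → K) × K, G q.1 q.2 = ∑ q : (I → K) × K, G (σ q).1 (σ q).2 :=
    (Equiv.sum_comp hσ.toPerm fun q => G q.1 q.2).symm
  have h2 : ∀ q : (I → K) × K, G (σ q).1 (σ q).2 = G q.1 (q.1 y) := fun q => hG _ _ _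
  rw [← Fintype.sum_prod_type', h1, Finset.sum_congr rfl fun q _ => h2 q,
    Fintype.sum_prod_type, Finset.mul_sum]
  refine Finset.sum_congr rfl fun g _ => ?_
  simp only [Finset.sum_const, Finset.card_univ, nsmul_eq_mul]

theorem sum_img {I K : Type} [DecidableEq I] [Fintype I] [Fintype K] [Nonempty K] (z : ℝ) (hz : 0 ≤ z)
    (Y : Finset I) :
    ∑ g : I → K, z ^ (Y.card - img g Y) ≤
      (Fintype.card K : ℝ) ^ Fintype.card I *
        (1 + z * Y.card / Fintype.card K) ^ Y.card := by
  have hK : 0 < (Fintype.card K : ℝ) := by exact_mod_cast Fintype.card_pos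
  induction Y using Finset.induction_on with
  | empty =>
    simp
  | insert y Y hy ih =>
    have h1 : ∀ g : I → K, z ^ ((insert y Y).card - img g (insert y Y)) =
        z ^ (Y.card - img g Y) * if ∃ p ∈ Y, g p = g y then z else 1 := by
      intro g
      have h2 := img_le g Y
      rw [img_insert, Finset.card_insert_of_notMem hy]
      by_cases h : ∃ p ∈ Y, g p = g y
      · rw [if_pos h, if_pos h, add_zero, ← pow_succ]
        congr 1; omega
      · rw [if_neg h, if_neg h, mul_one]
        congr 1; omega
    have h3 := avg y (fun (g : I → K) c =>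
      z ^ (Y.card - img g Y) * if ∃ p ∈ Y, g p = c then z else 1) (by
        intro g c c'
        have h4 : (∃ p ∈ Y, Function.update g y c p = c') ↔ ∃ p ∈ Y, g p = c' := by
          constructor
          · rintro ⟨p, hp, h⟩
            have : p ≠ y := by rintro rfl; exact hy hp
            rw [Function.update_of_ne this] at h
            exact ⟨p, hp, h⟩
          · rintro ⟨p, hp, h⟩
            have : p ≠ y := by rintro rfl; exact hy hp
            exact ⟨p, hp, by rw [Function.update_of_ne this]; exact h⟩
        simp only [img_update g y c Y hy, h4])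
    have h5 : ∀ g : I → K, ∑ c, (z ^ (Y.card - img g Y) * if ∃ p ∈ Y, g p = c then z else 1) ≤
        z ^ (Y.card - img g Y) * (Fintype.card K + z * Y.card) := by
      intro g
      rw [← Finset.mul_sum]
      refine mul_le_mul_of_nonneg_left ?_ (by positivity)
      rw [Finset.sum_ite, Finset.sum_const, Finset.sum_const, nsmul_eq_mul, nsmul_eq_mul, mul_one]
      have h6 : ((Finset.univ.filter fun c => ∃ p ∈ Y, g p = c).card : ℝ) ≤ Y.card := by
        have := img_le g Y
        rw [img, cnt_eq] at this
        exact_mod_cast this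
      have h7 : ((Finset.univ.filter fun c => ¬ ∃ p ∈ Y, g p = c).card : ℝ) ≤
          Fintype.card K := by
        exact_mod_cast Finset.card_le_univ _
      nlinarith
    have h8 : (Fintype.card K : ℝ) * ∑ g : I → K, z ^ ((insert y Y).card - img g (insert y Y)) ≤
        (Fintype.card K + z * Y.card) * ((Fintype.card K : ℝ) ^ Fintype.card I *
        (1 + z * Y.card / Fintype.card K) ^ Y.card) := by
      rw [Finset.sum_congr rfl fun g _ => h1 g, h3]
      refine (Finset.sum_le_sum fun g _ => h5 g).trans ?_
      rw [← Finset.sum_mul, mul_comm]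
      exact mul_le_mul_of_nonneg_left ih (by positivity)
    have h9 : ∑ g : I → K, z ^ ((insert y Y).card - img g (insert y Y)) ≤
        (1 + z * Y.card / Fintype.card K) * ((Fintype.card K : ℝ) ^ Fintype.card I *
        (1 + z * Y.card / Fintype.card K) ^ Y.card) := by
      rw [← mul_le_mul_iff_right₀ hK]
      refine h8.trans (le_of_eq ?_)
      field_simp
    refine h9.trans ?_
    rw [Finset.card_insert_of_notMem hy]
    push_cast
    calc (1 + z * Y.card / Fintype.card K) * ((Fintype.card K : ℝ) ^ Fintype.card I *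
        (1 + z * Y.card / Fintype.card K) ^ Y.card)
        = (Fintype.card K : ℝ) ^ Fintype.card I *
          (1 + z * Y.card / Fintype.card K) ^ (Y.card + 1) := by ring
      _ ≤ _ := by
        have : z * Y.card / Fintype.card K ≤ z * (Y.card + 1) / Fintype.card K := by
          gcongr; linarith
        gcongr

theorem expander {α K : Type} [Fintype α] [Fintype K] [Nonempty α] [Nonempty K] (a : ℕ)
    (ha : 1 ≤ a) (xm : ℝ)
    (h : 21 * (a : ℝ) ^ 4 * Fintype.card α * xm ≤ (Fintype.card K : ℝ) ^ 2) :
    ∃ g : α × Fin a → K, ∀ X : Finset α, X.Nonempty → (X.card : ℝ) ≤ xm →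
      a * X.card < img g (X ×ˢ (Finset.univ : Finset (Fin a))) + 2 * X.card := by
  set N : ℕ := Fintype.card α with hN
  set b : ℕ := Fintype.card K with hb
  have hNpos : (0 : ℝ) < N := by exact_mod_cast Fintype.card_pos
  have hbpos : (0 : ℝ) < b := by exact_mod_cast Fintype.card_pos
  have hapos : (0 : ℝ) < a := by exact_mod_cast ha
  let E : Finset (Finset α) := Finset.univ.filter fun X => X.Nonempty ∧ (X.card : ℝ) ≤ xm
  let z : ℕ → ℝ := fun x => 2 * b / ((a : ℝ) ^ 2 * x)
  let u : ℕ → ℝ := fun x => (Real.exp 1 * (a : ℝ) ^ 2 * x / (2 * b)) ^ (2 * x)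
  have hzpos : ∀ x : ℕ, 1 ≤ x → 0 < z x := by
    intro x hx
    have : (0 : ℝ) < x := by exact_mod_cast hx
    simp only [z]; positivity
  have hz0 : ∀ x : ℕ, 0 ≤ z x := by
    intro x
    simp only [z]; positivity
  have hbound : ∀ x : ℕ, (x : ℝ) ≤ xm → 21 * (a : ℝ) ^ 4 * N * x ≤ (b : ℝ) ^ 2 := by
    intro x hx
    refine le_trans ?_ h
    gcongr
  have hz1 : ∀ x : ℕ, 1 ≤ x → x ≤ N → (x : ℝ) ≤ xm → 1 ≤ z x := by
    intro x hx1 hxN hx
    have hx0 : (0 : ℝ) < x := by exact_mod_cast hx1
    have hxN' : (x : ℝ) ≤ N := by exact_mod_cast hxN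
    simp only [z]
    rw [one_le_div (by positivity)]
    have h1 := hbound x hx
    have h2 : ((a : ℝ) ^ 2 * x) ^ 2 ≤ (2 * b) ^ 2 := by
      calc ((a : ℝ) ^ 2 * x) ^ 2 = (a : ℝ) ^ 4 * x * x := by ring
        _ ≤ (a : ℝ) ^ 4 * N * x := by gcongr
        _ ≤ 21 * (a : ℝ) ^ 4 * N * x := by
            have : 0 ≤ (a : ℝ) ^ 4 * N * x := by positivity
            linarith
        _ ≤ (b : ℝ) ^ 2 := h1
        _ ≤ _ := by nlinarith
    exact le_of_sq_le_sq h2 (by positivity)
  have hcardI : Fintype.card (α × Fin a) = N * a := by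
    rw [Fintype.card_prod, Fintype.card_fin]
  have key : ∀ X ∈ E, ∑ g : α × Fin a → K,
      z X.card ^ ((X ×ˢ (Finset.univ : Finset (Fin a))).card -
        img g (X ×ˢ (Finset.univ : Finset (Fin a)))) / z X.card ^ (2 * X.card) ≤
      (b : ℝ) ^ (N * a) * u X.card := by
    intro X hX
    rw [Finset.mem_filter] at hX
    obtain ⟨_, hX1, hX2⟩ := hX
    have hx1 : 1 ≤ X.card := Finset.one_le_card.2 hX1
    have hx0 : (0 : ℝ) < X.card := by exact_mod_cast hx1
    rw [← Finset.sum_div, div_le_iff₀ (pow_pos (hzpos _ hx1) _)]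
    refine (sum_img (z X.card) (hz0 _) _).trans ?_
    rw [hcardI, mul_assoc]
    refine mul_le_mul_of_nonneg_left ?_ (by positivity)
    have h1 : (X ×ˢ (Finset.univ : Finset (Fin a))).card = X.card * a := by
      rw [Finset.card_product, Finset.card_univ, Fintype.card_fin]
    rw [h1]
    have h2 : z X.card * ((X.card * a : ℕ) : ℝ) / b = 2 / a := by
      simp only [z]; push_cast; field_simp
    rw [← hb, h2]
    have h3 : (1 + 2 / (a : ℝ)) ^ (X.card * a) ≤ Real.exp 1 ^ (2 * X.card) := by
      calc (1 + 2 / (a : ℝ)) ^ (X.card * a) ≤ Real.exp (2 / a) ^ (X.card * a) := by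
            have := Real.add_one_le_exp (2 / (a : ℝ))
            gcongr
            linarith
        _ = Real.exp 1 ^ (2 * X.card) := by
            rw [← Real.exp_nat_mul, ← Real.exp_nat_mul]
            congr 1
            push_cast
            field_simp
    refine h3.trans (le_of_eq ?_)
    simp only [u, z]
    rw [← mul_pow]
    congr 1
    field_simp
  have hu : ∀ x : ℕ, 1 ≤ x → (x : ℝ) ≤ xm → (N.choose x : ℝ) * u x ≤ (1 / 4) ^ x := by
    intro x hx1 hx
    have hx0 : (0 : ℝ) < x := by exact_mod_cast hx1
    have h1 : (N.choose x : ℝ) ≤ (N / x * Real.exp 1) ^ x := by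
      refine (Nat.choose_le_pow_div x N).trans ?_
      have h2 := Real.pow_div_factorial_le_exp (x : ℝ) hx0.le x
      have h3 : (N : ℝ) ^ x / (x.factorial : ℝ) = (N / x : ℝ) ^ x * ((x : ℝ) ^ x / x.factorial) := by
        rw [div_pow]
        field_simp
      rw [h3, mul_pow]
      refine mul_le_mul_of_nonneg_left (h2.trans (le_of_eq ?_)) (by positivity)
      rw [← Real.exp_nat_mul, mul_one]
    calc (N.choose x : ℝ) * u x ≤ (N / x * Real.exp 1) ^ x * u x := by
          refine mul_le_mul_of_nonneg_right h1 ?_
          simp only [u]; positivity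
      _ = (Real.exp 1 ^ 3 * (a : ℝ) ^ 4 * N * x / (4 * (b : ℝ) ^ 2)) ^ x := by
          simp only [u]
          rw [pow_mul, ← mul_pow]
          congr 1
          field_simp
          ring
      _ ≤ _ := by
          have h4 : Real.exp 1 ^ 3 ≤ 21 := by
            have := Real.exp_one_lt_d9
            calc Real.exp 1 ^ 3 ≤ 2.7182818286 ^ 3 := by gcongr
              _ ≤ 21 := by norm_num
          have h5 := hbound x hx
          have h6 : Real.exp 1 ^ 3 * (a : ℝ) ^ 4 * N * x / (4 * (b : ℝ) ^ 2) ≤ 1 / 4 := by
            rw [div_le_iff₀ (by positivity)]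
            calc Real.exp 1 ^ 3 * (a : ℝ) ^ 4 * N * x ≤ 21 * (a : ℝ) ^ 4 * N * x := by gcongr
              _ ≤ (b : ℝ) ^ 2 := h5
              _ = _ := by ring
          gcongr
  have hsum : ∑ X ∈ E, u X.card < 1 := by
    let w : ℕ → ℝ := fun x => if 1 ≤ x ∧ (x : ℝ) ≤ xm then u x else 0
    have hw0 : ∀ x, 0 ≤ w x := by
      intro x
      simp only [w]
      split_ifs
      · simp only [u]; positivity
      · exact le_rfl
    have h1 : ∑ X ∈ E, u X.card ≤ ∑ X ∈ (Finset.univ : Finset α).powerset, w X.card := by
      calc ∑ X ∈ E, u X.card = ∑ X ∈ E, w X.card := by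
            refine Finset.sum_congr rfl fun X hX => ?_
            rw [Finset.mem_filter] at hX
            simp only [w]
            rw [if_pos ⟨Finset.one_le_card.2 hX.2.1, hX.2.2⟩]
        _ ≤ _ := by
            refine Finset.sum_le_sum_of_subset_of_nonneg ?_ fun X _ _ => hw0 _
            intro X _
            exact Finset.mem_powerset.2 (Finset.subset_univ X)
    rw [Finset.sum_powerset_apply_card w, Finset.card_univ, ← hN] at h1
    have h2 : ∀ n : ℕ, ∑ x ∈ Finset.range (n + 1), N.choose x • w x ≤
        1 / 3 - 1 / 3 * (1 / 4 : ℝ) ^ n := by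
      intro n
      induction n with
      | zero => simp [w]
      | succ n ih =>
        rw [Finset.sum_range_succ]
        have h3 : N.choose (n + 1) • w (n + 1) ≤ (1 / 4 : ℝ) ^ (n + 1) := by
          rw [nsmul_eq_mul]
          by_cases h4 : ((n + 1 : ℕ) : ℝ) ≤ xm
          · have h5 : w (n + 1) = u (n + 1) := by
              simp only [w]; rw [if_pos ⟨by omega, h4⟩]
            rw [h5]
            exact hu (n + 1) (by omega) h4
          · have h5 : w (n + 1) = 0 := by
              simp only [w]; rw [if_neg fun h => h4 h.2]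
            rw [h5, mul_zero]; positivity
        rw [pow_succ] at h3 ⊢
        linarith
    have h3 := h2 N
    have h4 : (0 : ℝ) ≤ (1 / 4 : ℝ) ^ N := by positivity
    linarith
  obtain ⟨g, hg⟩ := exists_good E
    (fun X (g : α × Fin a → K) => z X.card ^ ((X ×ˢ (Finset.univ : Finset (Fin a))).card -
        img g (X ×ˢ (Finset.univ : Finset (Fin a)))) / z X.card ^ (2 * X.card))
    (fun X g => by
      have := hz0 X.card
      positivity)
    (fun X => (b : ℝ) ^ (N * a) * u X.card) key (by
      rw [← Finset.mul_sum, Fintype.card_fun, hcardI, Nat.cast_pow]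
      calc (b : ℝ) ^ (N * a) * ∑ X ∈ E, u X.card < (b : ℝ) ^ (N * a) * 1 :=
            mul_lt_mul_of_pos_left hsum (by positivity)
        _ = _ := mul_one _)
  refine ⟨g, fun X hX1 hX2 => ?_⟩
  have hx1 : 1 ≤ X.card := Finset.one_le_card.2 hX1
  have h1 := hg X (Finset.mem_filter.2 ⟨Finset.mem_univ _, hX1, hX2⟩)
  rw [div_lt_one (pow_pos (hzpos _ hx1) _)] at h1
  have h2 : (X ×ˢ (Finset.univ : Finset (Fin a))).card = X.card * a := by
    rw [Finset.card_product, Finset.card_univ, Fintype.card_fin]
  rw [h2] at h1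
  by_contra hcon
  push Not at hcon
  have h3 : 2 * X.card ≤ X.card * a - img g (X ×ˢ (Finset.univ : Finset (Fin a))) := by
    have : a * X.card = X.card * a := mul_comm _ _
    omega
  exact absurd (pow_le_pow_right₀ (hz1 _ hx1 (Finset.card_le_univ X) hX2) h3) (not_le.2 h1)

end Pool.Agent.helper7.Ucode
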