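import Pool.Agent.helper7.Ucode.Basic
import Pool.Agent.helper7.Ucode.Tail

set_option autoImplicit false

/-!
# Amplification, combination, polynomial codes
-/

noncomputable section

open scoped Classical

namespace Pool.Agent.helper7.Ucode

/-- A family of tuples of words, a fraction `q` of which contain an active word, followed by a
code on each tuple. -/
theorem Code.tuples {α γ ι : Type} [Fintype α] [Fintype γ] [Fintype ι] [Nonempty ι]
    {x q δ : ℝ} {n ℓ L N : ℕ} (y : ι → γ → List α) (hN : Fintype.card ι ≤ N)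
    (hL : ∀ i j, (y i j).length ≤ L) (hδ : 0 ≤ δ)
    (hy : ∀ P : List α → Prop, Sat P → x ≤ (act P (fun a : α => [a]) : ℝ) →
      q * Fintype.card ι ≤ (cnt (fun i => ∃ j, ¬ P (y i j)) : ℝ))
    (h : Code γ 1 n ℓ δ) : Code α x (N * n) (L * ℓ) (q * δ) := by
  obtain ⟨κ, i1, i2, v, h1, h2, h3⟩ := h
  refine ⟨ι × κ, inferInstance, inferInstance, fun p => (v p.2).flatMap (y p.1), ?_, ?_, ?_⟩
  · rw [Fintype.card_prod]; exact Nat.mul_le_mul hN h1
  · intro p
    exact (length_flatMap_le _ L (hL p.1) _).trans (Nat.mul_le_mul_left L (h2 p.2))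
  · intro P hP hx
    set S := Finset.univ.filter fun i => ∃ j, ¬ P (y i j) with hS
    have h4 : q * Fintype.card ι ≤ S.card := by
      rw [hS, ← cnt_eq]
      exact hy P hP hx
    have h5 : ∀ i ∈ S, δ * Fintype.card κ ≤
        ((∑ k, if P ((v k).flatMap (y i)) then 0 else 1 : ℕ) : ℝ) := by
      intro i hi
      rw [hS, Finset.mem_filter] at hi
      obtain ⟨_, j, hj⟩ := hi
      refine h3 (fun w => P (w.flatMap (y i))) (hP.flatMap _) ?_
      have : 1 ≤ act (fun w : List γ => P (w.flatMap (y i))) (fun a : γ => [a]) := by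
        rw [act_eq_cnt, cnt_pos]
        refine ⟨j, ?_⟩
        simpa using hj
      exact_mod_cast this
    have h6 : (act P fun p : ι × κ => (v p.2).flatMap (y p.1)) =
        ∑ i, ∑ k, if P ((v k).flatMap (y i)) then 0 else 1 := by
      rw [act, Fintype.sum_prod_type]
    rw [h6, Fintype.card_prod]
    push_cast
    have h7 : ∑ i ∈ S, (∑ k, if P ((v k).flatMap (y i)) then 0 else 1 : ℕ) ≤
        ∑ i, (∑ k, if P ((v k).flatMap (y i)) then 0 else 1 : ℕ) :=
      Finset.sum_le_sum_of_subset (Finset.subset_univ S)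
    have h8 : ((∑ i ∈ S, (∑ k, if P ((v k).flatMap (y i)) then 0 else 1 : ℕ) : ℕ) : ℝ) ≤
        ((∑ i, (∑ k, if P ((v k).flatMap (y i)) then 0 else 1 : ℕ) : ℕ) : ℝ) := by
      exact_mod_cast h7
    have h9 : (S.card : ℝ) * (δ * Fintype.card κ) ≤
        ((∑ i ∈ S, (∑ k, if P ((v k).flatMap (y i)) then 0 else 1 : ℕ) : ℕ) : ℝ) := by
      rw [Nat.cast_sum, ← nsmul_eq_mul, ← Finset.sum_const]
      exact Finset.sum_le_sum h5
    have h10 : (q * Fintype.card ι) * (δ * Fintype.card κ) ≤ S.card * (δ * Fintype.card κ) :=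
      mul_le_mul_of_nonneg_right h4 (by positivity)
    push_cast at h8 h9 ⊢
    nlinarith

/-- Amplification of the density from `1 / D` to `(1 - ε) / 2`. -/
theorem Code.amp {α : Type} [Fintype α] {x : ℝ} {n ℓ : ℕ} (D ε : ℝ) (s : ℕ) (hD : 0 < D)
    (hs : 7 / 5 * D ≤ ε * s) (h : Code α x n ℓ (1 / D)) :
    Code α x (n * 2 ^ s) (ℓ * s) ((1 - ε) / 2) := by
  obtain ⟨ι, i1, i2, v, h1, h2, h3⟩ := h
  obtain ⟨Γ, hΓ⟩ := hit (α := ι) D ε s hD hs
  have h4 := Code.tuples (x := x) (q := 1 - ε) (δ := 1 / 2) (fun i j => v (Γ i j)) h1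
    (fun i j => h2 _) (by norm_num) (fun P hP hx => ?_) (subset_code s)
  · exact h4.mono le_rfl le_rfl le_rfl (by linarith)
  · have h5 := h3 P hP hx
    have h6 := hΓ (Finset.univ.filter fun i => ¬ P (v i)) (by
      rw [← cnt_eq, ← act_eq_cnt]
      rw [one_div, inv_mul_le_iff₀ hD] at h5
      exact h5)
    simpa using h6

/-- Combination of two families. -/
theorem comb {α ιT ιu : Type} [Fintype α] [Fintype ιT] [Fintype ιu] [Nonempty ιT]
    (T : ιT → List α) (u : ιu → List α) (m : ℕ) (δ η : ℝ)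
    (hδ : 0 ≤ δ) (hδ2 : δ ≤ 1 / 2) (hη : 0 < η) (hη2 : η ≤ 1 / 2)
    (hm : 2 * ((Fintype.card ιT : ℝ) + Fintype.card ιu) ≤ Fintype.card ιu * m * (δ * η ^ 2)) :
    ∃ τ : ιu × Fin m → ιT × Bool, ∀ P : List α → Prop, Sat P →
      (2 * δ * Fintype.card ιT ≤ act P T ∨ δ * Fintype.card ιu ≤ act P u) →
      (1 - η) * (δ * Fintype.card ιu * m) ≤
        act P (fun p => (if (τ p).2 then T (τ p).1 else []) ++ u p.1) := by
  set M : ℕ := Fintype.card ιT with hM
  set n : ℕ := Fintype.card ιu with hn
  have hMpos : 0 < M := Fintype.card_pos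
  have hMpos' : (0 : ℝ) < M := by exact_mod_cast hMpos
  let E : Finset (Finset ιT × Finset ιu) :=
    Finset.univ.filter fun e => 2 * δ * M ≤ e.1.card ∨ δ * n ≤ e.2.card
  let B : Finset ιT × Finset ιu → ιu × Fin m → Finset (ιT × Bool) := fun e p =>
    if p.1 ∈ e.2 then (e.1 ×ˢ {true})ᶜ else e.1 ×ˢ {true}
  have hBcard : ∀ e p, ((B e p).card : ℝ) =
      if p.1 ∈ e.2 then 2 * (M : ℝ) - e.1.card else e.1.card := by
    intro e p
    by_cases hp : p.1 ∈ e.2
    · simp only [B, if_pos hp]
      rw [Finset.card_compl, Nat.cast_sub (Finset.card_le_univ _), Finset.card_product,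
        Fintype.card_prod, Fintype.card_bool, Finset.card_singleton]
      push_cast; ring
    · simp only [B, if_neg hp]
      rw [Finset.card_product, Finset.card_singleton, mul_one]
  have hsum : ∀ e, ∑ p, ((B e p).card : ℝ) =
      m * ((e.2.card : ℝ) * (2 * M - e.1.card) + (n - e.2.card) * e.1.card) := by
    intro e
    rw [Finset.sum_congr rfl fun p _ => hBcard e p, Fintype.sum_prod_type]
    have e0 : ∀ x : ιu, (∑ _y : Fin m, if x ∈ e.2 then 2 * (M : ℝ) - e.1.card else e.1.card) =
        m * if x ∈ e.2 then 2 * (M : ℝ) - e.1.card else e.1.card := by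
      intro x
      rw [Finset.sum_const, Finset.card_univ, Fintype.card_fin, nsmul_eq_mul]
    rw [Finset.sum_congr rfl fun x _ => e0 x, ← Finset.mul_sum, Finset.sum_ite]
    simp only [Finset.sum_const, nsmul_eq_mul]
    have e1 : (Finset.univ.filter fun x => x ∈ e.2) = e.2 := by
      ext a; simp
    have e2 : (Finset.univ.filter fun x => x ∉ e.2) = e.2ᶜ := by
      ext a; simp
    rw [e1, e2, Finset.card_compl, Nat.cast_sub (Finset.card_le_univ _)]
  obtain ⟨τ, hτ⟩ := lower_tail E B η (δ * n * m) hη (by linarith) (by positivity) (by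
    intro e he
    rw [Finset.mem_filter] at he
    have ha : (e.2.card : ℝ) ≤ n := by exact_mod_cast Finset.card_le_univ _
    have ht : (e.1.card : ℝ) ≤ M := by exact_mod_cast Finset.card_le_univ _
    have ha0 : (0 : ℝ) ≤ e.2.card := Nat.cast_nonneg _
    have ht0 : (0 : ℝ) ≤ e.1.card := Nat.cast_nonneg _
    rw [hsum, Fintype.card_prod, Fintype.card_bool]
    push_cast
    rw [← hM]
    have hm0 : (0 : ℝ) ≤ m := Nat.cast_nonneg _
    have hn0 : (0 : ℝ) ≤ n := Nat.cast_nonneg _
    suffices hh : δ * n * (2 * M) ≤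
        (e.2.card : ℝ) * (2 * M - e.1.card) + (n - e.2.card) * e.1.card by
      calc δ * n * m * (M * 2) = m * (δ * n * (2 * M)) := by ring
        _ ≤ _ := mul_le_mul_of_nonneg_left hh hm0
    set a : ℝ := (e.2.card : ℝ)
    set t : ℝ := (e.1.card : ℝ)
    rcases he.2 with h1 | h1
    · -- many active members in `T`
      have h2 : (n : ℝ) * t ≤ a * (2 * M - t) + (n - a) * t := by nlinarith
      have h3 : (n : ℝ) * (2 * δ * M) ≤ n * t := mul_le_mul_of_nonneg_left h1 hn0
      nlinarith
    · -- many active members in `u`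
      by_cases h4 : 2 * a ≤ n
      · have h5 : 0 ≤ (n - 2 * a) * t := mul_nonneg (by linarith) ht0
        have h6 : δ * n * (2 * M) ≤ a * (2 * M) :=
          mul_le_mul_of_nonneg_right h1 (by positivity)
        nlinarith
      · push Not at h4
        have h5 : 0 ≤ (2 * a - n) * (M - t) := mul_nonneg (by linarith) (by linarith)
        have h6 : δ * (n * (2 * M)) ≤ 1 / 2 * (n * (2 * M)) :=
          mul_le_mul_of_nonneg_right hδ2 (by positivity)
        nlinarith) (by
    have hEcard : (E.card : ℝ) ≤ 2 ^ (M + n) := by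
      have : E.card ≤ 2 ^ (M + n) := by
        refine (Finset.card_le_univ _).trans ?_
        rw [Fintype.card_prod, Fintype.card_finset, Fintype.card_finset, pow_add]
      exact_mod_cast this
    have h2 : (2 : ℝ) < Real.exp 1 := by
      have := Real.exp_one_gt_d9
      linarith
    calc (E.card : ℝ) * Real.exp (-(η ^ 2 * (δ * n * m) / 2))
        ≤ 2 ^ (M + n) * Real.exp (-((M + n : ℕ) : ℝ)) := by
          refine mul_le_mul hEcard (Real.exp_le_exp.2 ?_) (Real.exp_pos _).le (by positivity)
          push_cast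
          linarith
      _ < Real.exp 1 ^ (M + n) * Real.exp (-((M + n : ℕ) : ℝ)) := by
          refine mul_lt_mul_of_pos_right ?_ (Real.exp_pos _)
          exact pow_lt_pow_left₀ h2 (by norm_num) (by omega)
      _ = 1 := by
          rw [← Real.exp_nat_mul, ← Real.exp_add]; simp)
  refine ⟨τ, fun P hP h => ?_⟩
  set e : Finset ιT × Finset ιu :=
    (Finset.univ.filter fun i => ¬ P (T i), Finset.univ.filter fun i => ¬ P (u i)) with he
  have heE : e ∈ E := by
    rw [Finset.mem_filter]
    refine ⟨Finset.mem_univ _, ?_⟩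
    rw [he]
    simp only
    rw [← cnt_eq, ← cnt_eq, ← act_eq_cnt, ← act_eq_cnt]
    exact h
  refine (hτ e heE).trans ?_
  rw [act_eq_cnt]
  refine Nat.cast_le.2 (cnt_mono fun p hp2 => ?_)
  by_cases hu : p.1 ∈ e.2
  · simp only [B, if_pos hu, Finset.mem_compl, Finset.mem_product, Finset.mem_singleton] at hp2
    have hu' : ¬ P (u p.1) := by simpa [he] using hu
    have hT : P (if (τ p).2 then T (τ p).1 else []) := by
      by_cases hb : (τ p).2 = true
      · rw [if_pos hb]
        by_contra hcon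
        exact hp2 ⟨by simpa [he] using hcon, hb⟩
      · rw [if_neg hb]; exact hP.nil
    exact fun hcon => hu' (hP.left _ _ hT hcon)
  · simp only [B, if_neg hu, Finset.mem_product, Finset.mem_singleton] at hp2
    have hu' : P (u p.1) := by
      by_contra hcon
      exact hu (by simpa [he] using hcon)
    have hT : ¬ P (T (τ p).1) := by simpa [he] using hp2.1
    rw [if_pos hp2.2]
    exact fun hcon => hT (hP.right _ _ hu' hcon)

/-- Doubling the alphabet. -/
theorem Code.double {s n ℓ : ℕ} (h : Code (Fin s) 1 n ℓ (9 / 20)) :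
    Code (Fin (s + s)) 1 (n * 80 * 2 ^ 140) ((2 * ℓ) * 140) (9 / 20) := by
  obtain ⟨ι, i1, i2, v, h1, h2, h3⟩ := h
  have hpos : 0 < (Fintype.card ι : ℝ) := by exact_mod_cast Fintype.card_pos
  obtain ⟨τ, hτ⟩ := comb (α := Fin s ⊕ Fin s) (fun i => (v i).map Sum.inl)
    (fun i => (v i).map Sum.inr) 80 (1 / 5) (1 / 2) (by norm_num) (by norm_num) (by norm_num)
    (by norm_num) (by push_cast; linarith)
  have h4 : Code (Fin s ⊕ Fin s) 1 (n * 80) (2 * ℓ) (1 / 10) := by
    refine ⟨ι × Fin 80, inferInstance, inferInstance,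
      fun p => (if (τ p).2 then (v (τ p).1).map Sum.inl else []) ++ (v p.1).map Sum.inr,
      ?_, ?_, fun P hP hx => ?_⟩
    · rw [Fintype.card_prod, Fintype.card_fin]; exact Nat.mul_le_mul_right 80 h1
    · intro p
      rw [List.length_append, List.length_map]
      have e1 := h2 (τ p).1
      have e2 := h2 p.1
      by_cases hb : (τ p).2 = true
      · rw [if_pos hb, List.length_map]; omega
      · rw [if_neg hb, List.length_nil]; omega
    · have h5 := hτ P hP (by
        have hx' : 1 ≤ act P (fun a : Fin s ⊕ Fin s => [a]) := by exact_mod_cast hx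
        rw [act_eq_cnt, cnt_pos] at hx'
        obtain ⟨a, ha⟩ := hx'
        rcases a with a | a
        · left
          have h6 : (1 : ℝ) ≤ act (fun w : List (Fin s) => P (w.map Sum.inl))
              (fun a : Fin s => [a]) := by
            have : 1 ≤ act (fun w : List (Fin s) => P (w.map Sum.inl))
              (fun a : Fin s => [a]) := by
              rw [act_eq_cnt, cnt_pos]; exact ⟨a, ha⟩
            exact_mod_cast this
          have h7 := h3 _ (hP.map Sum.inl) h6
          refine le_trans ?_ h7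
          linarith
        · right
          have h6 : (1 : ℝ) ≤ act (fun w : List (Fin s) => P (w.map Sum.inr))
              (fun a : Fin s => [a]) := by
            have : 1 ≤ act (fun w : List (Fin s) => P (w.map Sum.inr))
              (fun a : Fin s => [a]) := by
              rw [act_eq_cnt, cnt_pos]; exact ⟨a, ha⟩
            exact_mod_cast this
          have h7 := h3 _ (hP.map Sum.inr) h6
          refine le_trans ?_ h7
          linarith)
      refine le_trans ?_ h5
      rw [Fintype.card_prod, Fintype.card_fin]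
      push_cast
      linarith
  have h5 := h4.amp (D := 10) (1 / 10) 140 (by norm_num) (by norm_num)
  exact (Code.of_surjective finSumFinEquiv finSumFinEquiv.surjective h5).mono le_rfl le_rfl
    le_rfl (by norm_num)

theorem pow_code (i : ℕ) : Code (Fin (2 ^ i)) 1 ((2 ^ 147) ^ i) ((2 ^ 147) ^ i) (9 / 20) := by
  induction i with
  | zero =>
    refine ⟨Unit, inferInstance, inferInstance, fun _ => [0], by simp, by simp, ?_⟩
    intro P hP hx
    have hx' : 1 ≤ act P (fun a : Fin (2 ^ 0) => [a]) := by exact_mod_cast hx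
    rw [act_eq_cnt, cnt_pos] at hx'
    obtain ⟨a, ha⟩ := hx'
    have ha0 : a = 0 := by
      have := a.2
      ext
      simp at this ⊢
      
    subst ha0
    have : act P (fun _ : Unit => [(0 : Fin (2 ^ 0))]) = 1 := by
      simp only [act, Finset.univ_unique, Finset.sum_const, Finset.card_singleton]
      rw [if_neg ha]
      rfl
    rw [this]
    norm_num
  | succ i ih =>
    have h := ih.double
    have e : 2 ^ i + 2 ^ i = 2 ^ (i + 1) := by ring
    rw [e] at h
    refine h.mono le_rfl ?_ ?_ le_rfl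
    · rw [pow_succ (2 ^ 147) i, mul_assoc]
      exact Nat.mul_le_mul_left _ (by norm_num)
    · rw [pow_succ (2 ^ 147) i]
      have : 2 * (2 ^ 147) ^ i * 140 = (2 ^ 147) ^ i * 280 := by ring
      rw [this]
      exact Nat.mul_le_mul_left _ (by norm_num)

/-- Codes of polynomial size and length. -/
theorem poly_code (s : ℕ) (hs : 1 ≤ s) :
    Code (Fin s) 1 ((2 * s) ^ 147) ((2 * s) ^ 147) (9 / 20) := by
  have h1 : s ≤ 2 ^ Nat.clog 2 s := Nat.le_pow_clog (by norm_num) s
  have h2 : 2 ^ Nat.clog 2 s ≤ 2 * s := by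
    rcases Nat.eq_or_lt_of_le hs with h | h
    · rw [← h]; simp
    · have h3 : 2 ^ (Nat.clog 2 s).pred < s := Nat.pow_pred_clog_lt_self (by norm_num) h
      have h4 : 0 < Nat.clog 2 s := Nat.clog_pos (by norm_num) h
      obtain ⟨j, hj⟩ := Nat.exists_eq_succ_of_ne_zero h4.ne'
      rw [hj, Nat.pred_succ] at h3
      rw [hj, pow_succ]
      omega
  have h3 := pow_code (Nat.clog 2 s)
  have h4 : Code (Fin s) 1 ((2 ^ 147) ^ Nat.clog 2 s) ((2 ^ 147) ^ Nat.clog 2 s) (9 / 20) := by
    refine Code.of_surjective (fun j => (⟨j.1 % s, Nat.mod_lt _ hs⟩ : Fin s)) ?_ h3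
    intro b
    exact ⟨⟨b.1, lt_of_lt_of_le b.2 h1⟩, by ext; exact Nat.mod_eq_of_lt b.2⟩
  have h5 : (2 ^ 147) ^ Nat.clog 2 s ≤ (2 * s) ^ 147 := by
    rw [← pow_mul, mul_comm, pow_mul]
    exact Nat.pow_le_pow_left h2 147
  exact h4.mono le_rfl h5 h5 le_rfl

/-- Codes for sets of constant density. -/
theorem dense_code {α : Type} [Fintype α] [Nonempty α] (D : ℕ) (hD : 1 ≤ D) :
    Code α ((Fintype.card α : ℝ) / D) (Fintype.card α * (28 * D) ^ 147) ((28 * D) ^ 147)
      (2 / 5) := by
  have hD' : (1 : ℝ) ≤ D := by exact_mod_cast hD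
  obtain ⟨Γ, hΓ⟩ := hit (α := α) D (1 / 10) (14 * D) (by linarith) (by push_cast; linarith)
  have h := poly_code (14 * D) (by omega)
  have e : 2 * (14 * D) = 28 * D := by ring
  rw [e] at h
  have h4 := Code.tuples (x := (Fintype.card α : ℝ) / D) (q := 9 / 10) (L := 1)
    (fun i j => [Γ i j]) le_rfl
    (fun i j => le_rfl) (by norm_num) (fun P hP hx => ?_) h
  · exact h4.mono le_rfl le_rfl (by rw [one_mul]) (by norm_num)
  · have h6 := hΓ (Finset.univ.filter fun i => ¬ P [i]) (by
      rw [← cnt_eq, ← act_eq_cnt P (fun a : α => [a])]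
      rw [div_le_iff₀ (by linarith)] at hx
      linarith)
    norm_num at h6 ⊢
    simpa using h6

end Pool.Agent.helper7.Ucode
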