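import Pool.Agent.helper7.Ucode.Step

set_option autoImplicit false

/-!
# The recursion
-/

noncomputable section

open scoped Classical

namespace Pool.Agent.helper7.Ucode

/-- The accumulated loss. -/
def Lam (ρ e : ℕ) : ℝ := 1000 / ρ + 1000 / 60000 - 1000 / (max (e + 1) 60000 : ℕ)

theorem Lam_nonneg (ρ e : ℕ) : 0 ≤ Lam ρ e := by
  have h1 : (60000 : ℝ) ≤ (max (e + 1) 60000 : ℕ) := by exact_mod_cast le_max_right _ _
  have h2 : 1000 / ((max (e + 1) 60000 : ℕ) : ℝ) ≤ 1000 / 60000 := by gcongr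
  have h3 : (0 : ℝ) ≤ 1000 / ρ := by positivity
  rw [Lam]; linarith

theorem Lam_le {ρ : ℕ} (hρ : 60000 ≤ ρ) (e : ℕ) : Lam ρ e ≤ 1 / 30 := by
  have h1 : (60000 : ℝ) ≤ ρ := by exact_mod_cast hρ
  have h2 : 1000 / (ρ : ℝ) ≤ 1000 / 60000 := by gcongr
  have h3 : (0 : ℝ) ≤ 1000 / ((max (e + 1) 60000 : ℕ) : ℝ) := by positivity
  have h4 : (1000 : ℝ) / 60000 = 1 / 60 := by norm_num
  rw [h4] at h2
  rw [Lam, h4]
  linarith

theorem pow_bound (h : ℕ) (hh : 30 ≤ h) : 4000 * (h + 1) ^ 2 ≤ 2 ^ h := by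
  induction h, hh using Nat.le_induction with
  | base => norm_num
  | succ h hh ih =>
    rw [pow_succ 2 h]
    nlinarith

theorem inv_pow_le (t : ℕ) (ht : 60000 ≤ t) :
    1 / (2 : ℝ) ^ (t / 2000) ≤ 1000 / t - 1000 / (t + 1 : ℕ) := by
  have h1 : 30 ≤ t / 2000 := by omega
  have h2 := pow_bound _ h1
  have h3 : t + 1 ≤ 2000 * (t / 2000 + 1) := by omega
  have h4 : t * (t + 1) ≤ 1000 * 2 ^ (t / 2000) := by
    calc t * (t + 1) ≤ (2000 * (t / 2000 + 1)) * (2000 * (t / 2000 + 1)) :=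
          Nat.mul_le_mul (by omega) h3
      _ = 1000 * (4000 * (t / 2000 + 1) ^ 2) := by ring
      _ ≤ _ := Nat.mul_le_mul_left 1000 h2
  have h5 : (t : ℝ) * (t + 1) ≤ 1000 * 2 ^ (t / 2000) := by exact_mod_cast h4
  have ht0 : (0 : ℝ) < t := by
    have : 0 < t := by omega
    exact_mod_cast this
  have h6 : 1000 / (t : ℝ) - 1000 / (t + 1 : ℕ) = 1000 / (t * (t + 1)) := by
    push_cast
    field_simp
    ring
  rw [h6, div_le_div_iff₀ (by positivity) (by positivity)]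
  linarith

theorem Lam_step {ρ e ρ' e' : ℕ} (hρ : 60000 ≤ ρ) (he : 60000 ≤ e) (hρ' : ρ + 1 ≤ ρ')
    (he' : e' + 1 ≤ e) : Lam ρ' e' + 1 / (2 : ℝ) ^ (min ρ e / 2000) ≤ Lam ρ e := by
  have h1 : 1 / (2 : ℝ) ^ (min ρ e / 2000) ≤
      (1000 / ρ - 1000 / (ρ + 1 : ℕ)) + (1000 / e - 1000 / (e + 1 : ℕ)) := by
    have h2 := inv_pow_le ρ hρ
    have h3 := inv_pow_le e he
    have h4 : (0 : ℝ) ≤ 1 / 2 ^ (ρ / 2000) := by positivity
    have h5 : (0 : ℝ) ≤ 1 / 2 ^ (e / 2000) := by positivity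
    rcases min_choice ρ e with h | h <;> rw [h] <;> linarith
  have h2 : 1000 / (ρ' : ℝ) ≤ 1000 / (ρ + 1 : ℕ) := by
    have : ((ρ + 1 : ℕ) : ℝ) ≤ ρ' := by exact_mod_cast hρ'
    gcongr
  have h3 : 1000 / (e : ℝ) ≤ 1000 / (max (e' + 1) 60000 : ℕ) := by
    have : ((max (e' + 1) 60000 : ℕ) : ℝ) ≤ e := by exact_mod_cast max_le he' he
    have h0 : (0 : ℝ) < (max (e' + 1) 60000 : ℕ) := by
      have : 0 < max (e' + 1) 60000 := by omega
      exact_mod_cast this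
    gcongr
  have h4 : max (e + 1) 60000 = e + 1 := max_eq_left (by omega)
  rw [Lam, Lam, h4]
  linarith

theorem size_bound (h : ℕ) :
    ((28 * (100 * (2 ^ h) ^ 12)) ^ 147 : ℕ) ≤ 2 ^ (1764 * (h + 1)) := by
  calc (28 * (100 * (2 ^ h) ^ 12)) ^ 147 ≤ (2 ^ 12 * (2 ^ h) ^ 12) ^ 147 := by
        refine Nat.pow_le_pow_left ?_ 147
        have : 0 ≤ (2 ^ h) ^ 12 := Nat.zero_le _
        calc 28 * (100 * (2 ^ h) ^ 12) = 2800 * (2 ^ h) ^ 12 := by ring
          _ ≤ 2 ^ 12 * (2 ^ h) ^ 12 := Nat.mul_le_mul_right _ (by norm_num)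
    _ = 2 ^ (1764 * (h + 1)) := by
        rw [← mul_pow, ← pow_mul, ← pow_succ', ← pow_mul]
        congr 1
        ring

theorem recursion (ρ0 : ℕ) (hρ0 : 147 * 60006 ≤ ρ0) (e : ℕ) : ∀ ρ : ℕ, ρ0 ≤ ρ →
    ∀ (α : Type) (_ : Fintype α) (_ : Nonempty α) (x lam : ℝ), 1 ≤ x → 1 ≤ lam →
    lam ≤ 2 * Real.exp (-(4 * Lam ρ e)) → (Fintype.card α : ℝ) ≤ lam * 2 ^ e * x →
    ∃ n ℓ : ℕ, (n : ℝ) ≤ 2 ^ ρ * (lam * 2 ^ e * x) ∧ (ℓ : ℝ) ≤ (2 ^ ρ0 + Lam ρ e) * 2 ^ e ∧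
      Code α x n ℓ (1 / 5 * (1 - Lam ρ e)) := by
  induction e using Nat.strong_induction_on with
  | h e ih =>
  intro ρ hρ α i1 i2 x lam hx hlam hlam2 hN
  have hL0 := Lam_nonneg ρ e
  have hρ6 : 60000 ≤ ρ := by omega
  have hL1 := Lam_le hρ6 e
  have hxpos : 0 < x := by linarith
  have hlampos : 0 < lam := by linarith
  have hlam3 : lam ≤ 2 := by
    refine hlam2.trans ?_
    have : Real.exp (-(4 * Lam ρ e)) ≤ 1 := Real.exp_le_one_iff.2 (by linarith)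
    linarith
  have hρ2 : (2 : ℝ) ^ ρ0 ≤ 2 ^ ρ := pow_le_pow_right₀ (by norm_num) hρ
  by_cases he : e < 60000
  · have hD1 : 1 ≤ 2 ^ (e + 1) := Nat.one_le_two_pow
    have h1 := dense_code (α := α) (2 ^ (e + 1)) hD1
    have h2 : ((28 * 2 ^ (e + 1)) ^ 147 : ℕ) ≤ 2 ^ ρ0 := by
      calc (28 * 2 ^ (e + 1)) ^ 147 ≤ (2 ^ 5 * 2 ^ (e + 1)) ^ 147 :=
            Nat.pow_le_pow_left (Nat.mul_le_mul_right _ (by norm_num)) 147
        _ = 2 ^ (147 * (e + 6)) := by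
            rw [← pow_add, ← pow_mul]
            congr 1
            ring
        _ ≤ _ := Nat.pow_le_pow_right (by norm_num) (by omega)
    have h3 : (((28 * 2 ^ (e + 1)) ^ 147 : ℕ) : ℝ) ≤ 2 ^ ρ0 := by exact_mod_cast h2
    refine ⟨_, _, ?_, ?_, h1.mono ?_ le_rfl le_rfl (by linarith)⟩
    · rw [Nat.cast_mul, mul_comm]
      exact mul_le_mul (h3.trans hρ2) hN (by positivity) (by positivity)
    · refine h3.trans ?_
      have h4 : (1 : ℝ) ≤ 2 ^ e := one_le_pow₀ (by norm_num)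
      have h5 : (0 : ℝ) ≤ 2 ^ ρ0 := by positivity
      calc (2 : ℝ) ^ ρ0 ≤ (2 ^ ρ0 + Lam ρ e) * 1 := by linarith
        _ ≤ _ := mul_le_mul_of_nonneg_left h4 (by linarith)
    · push_cast
      rw [div_le_iff₀ (by positivity)]
      refine hN.trans ?_
      rw [pow_succ]
      have h4 : (0 : ℝ) ≤ 2 ^ e * x := by positivity
      nlinarith
  · push Not at he
    set h : ℕ := min ρ e / 2000 with hh
    have hhρ : 2000 * h ≤ ρ := by omega
    have hhe : 2000 * h ≤ e := by omega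
    have hh30 : 30 ≤ h := by
      rw [hh]
      have : 60000 ≤ min ρ e := le_min hρ6 he
      omega
    obtain ⟨ρ', hρ'⟩ : ∃ ρ', ρ' + 8 = ρ + h := ⟨ρ + h - 8, by omega⟩
    obtain ⟨e', he'⟩ : ∃ e', e' + 4 * h = e := ⟨e - 4 * h, by omega⟩
    have hLs : Lam ρ' e' + 1 / (2 : ℝ) ^ h ≤ Lam ρ e :=
      Lam_step hρ6 he (by omega) (by omega)
    have hL0' := Lam_nonneg ρ' e'
    have hL1' := Lam_le (show 60000 ≤ ρ' by omega) e'
    have hQ16 : 16 ≤ 2 ^ h := by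
      calc 16 = 2 ^ 4 := by norm_num
        _ ≤ 2 ^ h := Nat.pow_le_pow_right (by norm_num) (by omega)
    set Q : ℝ := (2 : ℝ) ^ h with hQ
    have hQ16' : 16 ≤ Q := by rw [hQ]; exact_mod_cast hQ16
    have hQpos : 0 < Q := by linarith
    have hQcast : ((2 ^ h : ℕ) : ℝ) = Q := by push_cast; rfl
    have hQ4 : Q ^ 4 = 2 ^ (4 * h) := by rw [hQ, ← pow_mul, mul_comm]
    have he2 : (2 : ℝ) ^ e = 2 ^ e' * Q ^ 4 := by rw [hQ4, ← pow_add, he']
    set K : ℝ := lam * 2 ^ e * x with hK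
    have hKpos : 0 < K := by positivity
    set F : ℕ := (28 * (100 * (2 ^ h) ^ 12)) ^ 147 with hF
    have hF1 : (F : ℝ) ≤ 2 ^ (1764 * (h + 1)) := by exact_mod_cast size_bound h
    have hF2 : (F : ℝ) * Q ^ 3 ≤ 2 ^ ρ' := by
      calc (F : ℝ) * Q ^ 3 ≤ 2 ^ (1764 * (h + 1)) * Q ^ 3 := by gcongr
        _ = 2 ^ (1764 * (h + 1) + 3 * h) := by
            rw [hQ, ← pow_mul, ← pow_add]; congr 1; ring
        _ ≤ _ := pow_le_pow_right₀ (by norm_num) (by omega)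
    have hF3 : (F : ℝ) * Q ≤ 2 ^ e := by
      calc (F : ℝ) * Q ≤ 2 ^ (1764 * (h + 1)) * Q := by gcongr
        _ = 2 ^ (1764 * (h + 1) + h) := by
            rw [hQ, ← pow_add]
        _ ≤ _ := pow_le_pow_right₀ (by norm_num) (by omega)
    have hst := step (2 ^ h) hQ16 (α := α) K x (1 / 5 * (1 - Lam ρ' e'))
      (2 ^ ρ' * ((2 * Q + 3) * (K / Q ^ 4))) ((2 ^ ρ0 + Lam ρ' e') * 2 ^ e') hN
      (by
        rw [hQcast, hK, he2]
        have h1 : (1 : ℝ) ≤ 2 ^ e' := one_le_pow₀ (by norm_num)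
        have h2 : 0 ≤ Q ^ 4 := by positivity
        have h3 : (1 : ℝ) ≤ lam * 2 ^ e' * x := by
          have h4 : (1 : ℝ) ≤ lam * 2 ^ e' := by nlinarith
          nlinarith
        calc Q ^ 4 = 1 * Q ^ 4 := (one_mul _).symm
          _ ≤ (lam * 2 ^ e' * x) * Q ^ 4 := mul_le_mul_of_nonneg_right h3 h2
          _ = _ := by ring)
      hx (by linarith) (by linarith)
      (by
        intro κ k1 k2 hκ
        rw [hQcast] at hκ ⊢
        have hQ4' : 0 < 2 * Q - 4 := by linarith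
        obtain ⟨n, ℓ, hn, hℓ, hc⟩ := ih e' (by omega) ρ' (by omega) κ k1 k2 ((2 * Q - 4) * x)
          (lam * ((2 * Q + 3) / (2 * Q - 4))) (by nlinarith)
          (by
            have h1 : 1 ≤ (2 * Q + 3) / (2 * Q - 4) := by
              rw [one_le_div hQ4']; linarith
            nlinarith)
          (by
            have h1 : (2 * Q + 3) / (2 * Q - 4) ≤ Real.exp (4 * (1 / Q)) := by
              have h2 := Real.add_one_le_exp (4 * (1 / Q))
              refine le_trans ?_ h2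
              rw [div_le_iff₀ hQ4']
              have h3 : (4 * (1 / Q) + 1) * (2 * Q - 4) = 2 * Q + 4 - 16 / Q := by
                field_simp; ring
              rw [h3]
              have h4 : 16 / Q ≤ 1 := by rw [div_le_one hQpos]; exact hQ16'
              linarith
            calc lam * ((2 * Q + 3) / (2 * Q - 4))
                ≤ (2 * Real.exp (-(4 * Lam ρ e))) * Real.exp (4 * (1 / Q)) := by
                  refine mul_le_mul hlam2 h1 (by positivity) (by positivity)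
              _ = 2 * Real.exp (-(4 * Lam ρ e) + 4 * (1 / Q)) := by
                  rw [mul_assoc, ← Real.exp_add]
              _ ≤ _ := by
                  refine mul_le_mul_of_nonneg_left (Real.exp_le_exp.2 ?_) (by norm_num)
                  linarith)
          (by
            refine hκ.trans (le_of_eq ?_)
            rw [hK, he2]
            field_simp)
        refine ⟨n, ℓ, hn.trans (le_of_eq ?_), hℓ, hc⟩
        rw [hK, he2]
        field_simp)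
      (by
        have h1 : (F : ℝ) * Q ^ 4 ≤ 2 ^ ρ' * (2 * Q + 3) := by
          calc (F : ℝ) * Q ^ 4 = (F * Q ^ 3) * Q := by ring
            _ ≤ 2 ^ ρ' * Q := by gcongr
            _ ≤ _ := by gcongr; linarith
        calc K * (F : ℝ) = (F * Q ^ 4) * (K / Q ^ 4) := by field_simp
          _ ≤ (2 ^ ρ' * (2 * Q + 3)) * (K / Q ^ 4) := by gcongr
          _ = _ := by ring)
    obtain ⟨n, ℓ, hn, hℓ, hc⟩ := hst
    rw [hQcast] at hn hℓ hc
    refine ⟨n, ℓ, hn.trans ?_, hℓ.trans ?_, hc.mono le_rfl le_rfl le_rfl ?_⟩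
    · have h1 : (2 : ℝ) ^ ρ' * 256 = 2 ^ ρ * Q := by
        rw [hQ, ← pow_add, ← hρ', pow_add]; norm_num
      have h2 : 41 * Q ^ 2 * (2 ^ ρ' * ((2 * Q + 3) * (K / Q ^ 4))) =
          (2 ^ ρ' * 256) * (41 * (2 * Q + 3) / (256 * Q ^ 2)) * K := by
        field_simp
      rw [h2, h1]
      have h3 : Q * (41 * (2 * Q + 3) / (256 * Q ^ 2)) ≤ 1 := by
        rw [← mul_div_assoc, div_le_one (by positivity)]
        nlinarith
      calc (2 : ℝ) ^ ρ * Q * (41 * (2 * Q + 3) / (256 * Q ^ 2)) * K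
          = 2 ^ ρ * K * (Q * (41 * (2 * Q + 3) / (256 * Q ^ 2))) := by ring
        _ ≤ 2 ^ ρ * K * 1 := by gcongr
        _ = _ := by ring
    · have h1 : (F : ℝ) ≤ 1 / Q * 2 ^ e := by
        rw [one_div, inv_mul_eq_div, le_div_iff₀ hQpos]; exact hF3
      have h2 : Q ^ 4 * ((2 ^ ρ0 + Lam ρ' e') * 2 ^ e') = (2 ^ ρ0 + Lam ρ' e') * 2 ^ e := by
        rw [he2]; ring
      rw [h2]
      have h3 : (0 : ℝ) < 2 ^ e := by positivity
      nlinarith
    · have h1 : (1 - 1 / Q) * (1 - Lam ρ' e') ≥ 1 - Lam ρ' e' - 1 / Q := by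
        have : 0 ≤ 1 / Q * Lam ρ' e' := by positivity
        nlinarith
      nlinarith

end Pool.Agent.helper7.Ucode
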