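import Pool.Agent.helper7.Ucode.Expander

set_option autoImplicit false

/-!
# Spreading the active letters over short words
-/

noncomputable section

open scoped Classical

namespace Pool.Agent.helper7.Ucode

/-- Cutting bins into chunks of size at most `s`. -/
theorem chunks {I : Type} [Fintype I] (b s : ℕ) (hb : 1 ≤ b) (hs : 1 ≤ s) (g : I → Fin b) :
    ∃ (κ : Type) (_ : Fintype κ) (_ : Nonempty κ) (g' : I → κ) (π : κ → Fin b),
      (Fintype.card κ : ℝ) ≤ b + (Fintype.card I : ℝ) / s ∧
      (∀ c, cnt (fun p => g' p = c) ≤ s) ∧ ∀ p, π (g' p) = g p := by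
  let d : Fin b → ℕ := fun r => Fintype.card {p // g p = r}
  let rank : I → ℕ := fun p => (Fintype.equivFin {q // g q = g p} ⟨p, rfl⟩).val
  have hrank : ∀ p, rank p < d (g p) := fun p => (Fintype.equivFin {q // g q = g p} ⟨p, rfl⟩).2
  have hinj : ∀ p p', g p = g p' → rank p = rank p' → p = p' := by
    have h1 : ∀ (r : Fin b) (p p' : I) (hp : g p = r) (hp' : g p' = r),
        (Fintype.equivFin {q // g q = r} ⟨p, hp⟩).val =
          (Fintype.equivFin {q // g q = r} ⟨p', hp'⟩).val → p = p' := by
      intro r p p' hp hp' h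
      have h2 := (Fintype.equivFin {q // g q = r}).injective (Fin.ext h)
      exact congrArg Subtype.val h2
    have h3 : ∀ (r : Fin b) (p : I) (hp : g p = r),
        rank p = (Fintype.equivFin {q // g q = r} ⟨p, hp⟩).val := by
      intro r p hp
      subst hp
      rfl
    intro p p' hpp' hr
    refine h1 (g p') p p' hpp' rfl ?_
    rw [← h3 (g p') p hpp', ← h3 (g p') p' rfl, hr]
  refine ⟨Σ r : Fin b, Fin (d r / s + 1), inferInstance, ⟨⟨⟨0, hb⟩, 0⟩⟩,
    fun p => ⟨g p, ⟨rank p / s, Nat.lt_succ_of_le (Nat.div_le_div_right (hrank p).le)⟩⟩,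
    fun c => c.1, ?_, ?_, fun p => rfl⟩
  · rw [Fintype.card_sigma]
    simp only [Fintype.card_fin]
    push_cast
    have h1 : ∑ r, (d r : ℝ) = Fintype.card I := by
      have h2 : ∑ r, d r = Fintype.card I := by
        have h3 := Fintype.card_congr (Equiv.sigmaFiberEquiv g)
        rw [Fintype.card_sigma] at h3
        exact h3
      exact_mod_cast h2
    rw [Finset.sum_add_distrib, ← h1, Finset.sum_div]
    simp only [Finset.sum_const, Finset.card_univ, Fintype.card_fin, nsmul_eq_mul, mul_one]
    rw [add_comm]
    refine add_le_add le_rfl (Finset.sum_le_sum fun r _ => ?_)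
    exact Nat.cast_div_le
  · intro c
    rw [cnt]
    calc _ ≤ (Finset.range s).card := by
          refine Finset.card_le_card_of_injOn (fun p => rank p % s) ?_ ?_
          · intro p _
            simpa using Nat.mod_lt _ hs
          · intro p hp p' hp' h
            simp only [Finset.coe_filter, Finset.mem_univ, true_and, Set.mem_ofPred_eq] at hp hp'
            have h1 := hp.trans hp'.symm
            have h2 : g p = g p' := congrArg Sigma.fst h1
            have h3 : rank p / s = rank p' / s := by
              have := congrArg (fun c : (Σ r : Fin b, Fin (d r / s + 1)) => c.2.val) h1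
              simpa using this
            refine hinj p p' h2 ?_
            have h4 : rank p % s = rank p' % s := h
            rw [← Nat.div_add_mod (rank p) s, ← Nat.div_add_mod (rank p') s, h3, h4]
      _ = s := Finset.card_range s

/-- Many bins contain exactly one element. -/
theorem uniq_bins {I K : Type} [Fintype K] (g : I → K) (Y : Finset I) :
    2 * img g Y ≤ Y.card + cnt fun r => ∃ p ∈ Y, g p = r ∧ ∀ p' ∈ Y, g p' = r → p' = p := by
  have h1 : Y.card = ∑ r : K, (Y.filter fun p => g p = r).card :=
    Finset.card_eq_sum_card_fiberwise fun p _ => Finset.mem_coe.2 (Finset.mem_univ _)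
  rw [img, cnt, cnt, Finset.card_filter, Finset.card_filter, h1, Finset.mul_sum,
    ← Finset.sum_add_distrib]
  refine Finset.sum_le_sum fun r _ => ?_
  by_cases h : ∃ p ∈ Y, g p = r
  · rw [if_pos h]
    obtain ⟨p, hp, hpr⟩ := h
    have hpm : p ∈ Y.filter fun p => g p = r := Finset.mem_filter.2 ⟨hp, hpr⟩
    by_cases h2 : ∃ p ∈ Y, g p = r ∧ ∀ p' ∈ Y, g p' = r → p' = p
    · rw [if_pos h2]
      have : 1 ≤ (Y.filter fun p => g p = r).card := Finset.one_le_card.2 ⟨p, hpm⟩
      omega
    · rw [if_neg h2]
      have h3 : ∃ p' ∈ Y, g p' = r ∧ p' ≠ p := by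
        by_contra hcon
        refine h2 ⟨p, hp, hpr, fun p' hp' hpr' => ?_⟩
        by_contra hne
        exact hcon ⟨p', hp', hpr', hne⟩
      obtain ⟨p', hp', hpr', hne⟩ := h3
      have : 1 < (Y.filter fun p => g p = r).card :=
        Finset.one_lt_card.2 ⟨p, hpm, p', Finset.mem_filter.2 ⟨hp', hpr'⟩, hne.symm⟩
      omega
  · rw [if_neg h]
    omega

/-- Spreading: few short words, of which at least `a - 4` times the number of active letters
are active, provided there are not too many active letters. -/
theorem spread {α : Type} [Fintype α] [Nonempty α] (a b s : ℕ) (ha : 1 ≤ a) (hb : 1 ≤ b)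
    (hs : 1 ≤ s) (xm : ℝ)
    (h : 21 * (a : ℝ) ^ 4 * Fintype.card α * xm ≤ (b : ℝ) ^ 2) :
    ∃ (κ : Type) (_ : Fintype κ) (_ : Nonempty κ) (y : κ → List α),
      (Fintype.card κ : ℝ) ≤ b + (a : ℝ) * Fintype.card α / s ∧
      (∀ c, (y c).length ≤ s) ∧
      ∀ P : List α → Prop, Sat P → 1 ≤ act P (fun i : α => [i]) →
        (act P (fun i : α => [i]) : ℝ) ≤ xm →
        ((a : ℝ) - 4) * act P (fun i : α => [i]) ≤ act P y := by
  have : Nonempty (Fin b) := ⟨⟨0, hb⟩⟩
  obtain ⟨g, hg⟩ := expander (α := α) (K := Fin b) a ha xm (by rw [Fintype.card_fin]; exact h)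
  obtain ⟨κ, i1, i2, g', π, h1, h2, h3⟩ := chunks b s hb hs g
  refine ⟨κ, i1, i2, fun c => ((Finset.univ.filter fun p => g' p = c).toList.map Prod.fst),
    ?_, ?_, ?_⟩
  · rw [Fintype.card_prod, Fintype.card_fin] at h1
    refine h1.trans (le_of_eq ?_)
    push_cast; ring
  · intro c
    rw [List.length_map, Finset.length_toList, ← cnt_eq]
    exact h2 c
  · intro P hP hx1 hx2
    set X : Finset α := Finset.univ.filter fun i => ¬ P [i] with hX
    have hXact : act P (fun i : α => [i]) = X.card := by
      rw [act_eq_cnt, cnt_eq]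
    rw [hXact] at hx1 hx2 ⊢
    have h4 := hg X (Finset.one_le_card.1 hx1) hx2
    have h5 := uniq_bins g (X ×ˢ (Finset.univ : Finset (Fin a)))
    have h6 : (X ×ˢ (Finset.univ : Finset (Fin a))).card = X.card * a := by
      rw [Finset.card_product, Finset.card_univ, Fintype.card_fin]
    rw [h6] at h5
    set Q : Fin b → Prop := fun r => ∃ p ∈ X ×ˢ (Finset.univ : Finset (Fin a)), g p = r ∧
      ∀ p' ∈ X ×ˢ (Finset.univ : Finset (Fin a)), g p' = r → p' = p with hQ
    have h7 : cnt Q ≤
        act P (fun c => ((Finset.univ.filter fun p => g' p = c).toList.map Prod.fst)) := by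
      rw [act_eq_cnt, cnt_eq, cnt_eq]
      refine le_trans (Finset.card_le_card ?_) (Finset.card_image_le (f := π))
      intro r hr
      rw [Finset.mem_filter] at hr
      obtain ⟨_, p0, hp0, hp0r, huniq⟩ := hr
      rw [Finset.mem_image]
      refine ⟨g' p0, ?_, by rw [h3, hp0r]⟩
      rw [Finset.mem_filter]
      refine ⟨Finset.mem_univ _, ?_⟩
      have hmem : p0 ∈ (Finset.univ.filter fun p => g' p = g' p0).toList := by
        rw [Finset.mem_toList, Finset.mem_filter]; exact ⟨Finset.mem_univ _, rfl⟩
      obtain ⟨u, v, huv⟩ := List.mem_iff_append.1 hmem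
      have hnodup := Finset.nodup_toList (Finset.univ.filter fun p => g' p = g' p0)
      have hin : ∀ q ∈ u ++ v, P [q.1] := by
        intro q hq
        have hqmem : q ∈ (Finset.univ.filter fun p => g' p = g' p0).toList := by
          rw [huv]
          rw [List.mem_append] at hq ⊢
          rcases hq with hq | hq
          · exact Or.inl hq
          · exact Or.inr (List.mem_cons_of_mem _ hq)
        rw [Finset.mem_toList, Finset.mem_filter] at hqmem
        have hgq : g q = r := by rw [← h3, hqmem.2, h3, hp0r]
        by_contra hcon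
        have hqX : q ∈ X ×ˢ (Finset.univ : Finset (Fin a)) := by
          rw [Finset.mem_product]
          exact ⟨Finset.mem_filter.2 ⟨Finset.mem_univ _, hcon⟩, Finset.mem_univ _⟩
        have hq0 := huniq q hqX hgq
        rw [huv] at hnodup
        rw [List.nodup_middle] at hnodup
        rw [hq0] at hq
        exact (List.nodup_cons.1 hnodup).1 hq
      rw [huv, List.map_append, List.map_cons]
      refine hP.active_of_unique _ _ _ ?_ ?_ ?_
      · intro c hc
        obtain ⟨q, hq, rfl⟩ := List.mem_map.1 hc
        exact hin q (List.mem_append_left _ hq)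
      · intro c hc
        obtain ⟨q, hq, rfl⟩ := List.mem_map.1 hc
        exact hin q (List.mem_append_right _ hq)
      · rw [Finset.mem_product] at hp0
        exact (Finset.mem_filter.1 hp0.1).2
    have h8 : a * X.card ≤ cnt Q + 4 * X.card := by
      have : X.card * a = a * X.card := mul_comm _ _
      omega
    have h9 : (a : ℝ) * X.card ≤ cnt Q + 4 * X.card := by exact_mod_cast h8
    have h10 : (cnt Q : ℝ) ≤
        act P (fun c => ((Finset.univ.filter fun p => g' p = c).toList.map Prod.fst)) := by
      exact_mod_cast h7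
    linarith

end Pool.Agent.helper7.Ucode
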