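import Pool.Agent.helper7.Ucode.Spread
import Pool.Agent.helper7.Ucode.Poly

set_option autoImplicit false

/-!
# One step of the recursion
-/

noncomputable section

open scoped Classical

namespace Pool.Agent.helper7.Ucode

theorem step (Q : ℕ) (hQ : 16 ≤ Q) {α : Type} [Fintype α] [Nonempty α] (K x δ W L : ℝ)
    (hN : (Fintype.card α : ℝ) ≤ K) (hK : (Q : ℝ) ^ 4 ≤ K) (hx : 1 ≤ x)
    (hδ : 1 / 10 ≤ δ) (hδ2 : δ ≤ 1 / 5)
    (hrec : ∀ (κ : Type) (_ : Fintype κ) (_ : Nonempty κ),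
      (Fintype.card κ : ℝ) ≤ (2 * Q + 3) * (K / (Q : ℝ) ^ 4) →
      ∃ n ℓ : ℕ, (n : ℝ) ≤ W ∧ (ℓ : ℝ) ≤ L ∧ Code κ ((2 * Q - 4) * x) n ℓ δ)
    (hM : K * ((28 * (100 * Q ^ 12)) ^ 147 : ℕ) ≤ W) :
    ∃ n ℓ : ℕ, (n : ℝ) ≤ 41 * (Q : ℝ) ^ 2 * W ∧
      (ℓ : ℝ) ≤ ((28 * (100 * Q ^ 12)) ^ 147 : ℕ) + (Q : ℝ) ^ 4 * L ∧
      Code α x n ℓ ((1 - 1 / Q) * δ) := by
  set N : ℕ := Fintype.card α with hNdef
  set D : ℕ := 100 * Q ^ 12 with hD
  set F : ℕ := (28 * D) ^ 147 with hF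
  have hQ' : (16 : ℝ) ≤ Q := by exact_mod_cast hQ
  have hQpos : (0 : ℝ) < Q := by linarith
  have hNpos : (0 : ℝ) < N := by exact_mod_cast Fintype.card_pos
  have hDpos : 1 ≤ D := by
    rw [hD]
    have : 0 < Q ^ 12 := by positivity
    omega
  have hDpos' : (0 : ℝ) < D := by exact_mod_cast hDpos
  have hKpos : 0 < K := lt_of_lt_of_le hNpos hN
  set s : ℕ := Q ^ 4 with hs
  have hs1 : 1 ≤ s := Nat.one_le_pow _ _ (by omega)
  have hsr : (s : ℝ) = (Q : ℝ) ^ 4 := by rw [hs]; push_cast; ring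
  have hspos : (0 : ℝ) < s := by exact_mod_cast hs1
  set b : ℕ := ⌈2 * K / s⌉₊ with hb
  have hb1 : 2 * K / s ≤ b := Nat.le_ceil _
  have hb2 : (b : ℝ) < 2 * K / s + 1 := Nat.ceil_lt_add_one (by positivity)
  have hbpos : 1 ≤ b := by
    have : (0 : ℝ) < b := lt_of_lt_of_le (by positivity) hb1
    exact_mod_cast this
  have hKs : 1 ≤ K / s := by rw [one_le_div hspos, hsr]; exact hK
  obtain ⟨κ, i1, i2, y, hy1, hy2, hy3⟩ := spread (α := α) (2 * Q) b s (by omega) hbpos hs1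
    ((N : ℝ) / D) (by
      have h1 : 2 * (N : ℝ) / s ≤ b := le_trans (by gcongr) hb1
      have h2 : (2 * (N : ℝ) / s) ^ 2 ≤ (b : ℝ) ^ 2 := by gcongr
      refine le_trans ?_ h2
      rw [← hNdef, div_pow, hsr, hD]
      push_cast
      rw [le_div_iff₀ (by positivity)]
      have h3 : 21 * (2 * (Q : ℝ)) ^ 4 * N * (N / (100 * (Q : ℝ) ^ 12)) * ((Q : ℝ) ^ 4) ^ 2 =
          336 / 100 * (N : ℝ) ^ 2 := by
        field_simp
        ring
      rw [h3]
      nlinarith [sq_nonneg (N : ℝ)])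
  have hκ : (Fintype.card κ : ℝ) ≤ (2 * Q + 3) * (K / (Q : ℝ) ^ 4) := by
    refine hy1.trans ?_
    rw [← hNdef, ← hsr]
    push_cast
    have h1 : 2 * (Q : ℝ) * N / s ≤ 2 * Q * (K / s) := by
      rw [← mul_div_assoc]
      gcongr
    have h2 : 2 * K / s = 2 * (K / s) := by ring
    rw [h2] at hb2
    nlinarith
  obtain ⟨n', ℓ', hn', hℓ', hcode⟩ := hrec κ i1 i2 hκ
  obtain ⟨ιu, j1, j2, v, hv1, hv2, hv3⟩ := hcode
  obtain ⟨ιT, t1, t2, T, hT1, hT2, hT3⟩ := dense_code (α := α) D hDpos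
  rw [← hNdef] at hT1 hT3
  set M : ℕ := Fintype.card ιT with hMdef
  set n : ℕ := Fintype.card ιu with hndef
  have hnpos : (0 : ℝ) < n := by exact_mod_cast Fintype.card_pos
  have hMpos : (0 : ℝ) < M := by exact_mod_cast Fintype.card_pos
  have hnW : (n : ℝ) ≤ W := le_trans (by exact_mod_cast hv1) hn'
  have hMW : (M : ℝ) ≤ W := by
    have h1 : (M : ℝ) ≤ ((N * F : ℕ) : ℝ) := by exact_mod_cast hT1
    refine h1.trans (le_trans ?_ hM)
    push_cast
    gcongr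
  have hWpos : 0 < W := lt_of_lt_of_le hnpos hnW
  have hδpos : 0 < δ := by linarith
  set m : ℕ := ⌈2 * ((M : ℝ) + n) * (Q : ℝ) ^ 2 / (n * δ)⌉₊ with hm
  have hm1 : 2 * ((M : ℝ) + n) * (Q : ℝ) ^ 2 / (n * δ) ≤ m := Nat.le_ceil _
  have hm2 : (m : ℝ) < 2 * ((M : ℝ) + n) * (Q : ℝ) ^ 2 / (n * δ) + 1 :=
    Nat.ceil_lt_add_one (by positivity)
  have hmpos : 1 ≤ m := by
    have : (0 : ℝ) < m := lt_of_lt_of_le (by positivity) hm1
    exact_mod_cast this
  have hη : (1 : ℝ) / Q ≤ 1 / 2 := by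
    rw [div_le_div_iff_of_pos_left one_pos hQpos (by norm_num)]; linarith
  let u : ιu → List α := fun i => (v i).flatMap y
  obtain ⟨τ, hτ⟩ := comb T u m δ (1 / Q) hδpos.le (by linarith) (by positivity) hη (by
    rw [← hMdef, ← hndef]
    rw [div_le_iff₀ (by positivity)] at hm1
    have h1 : (n : ℝ) * m * (δ * (1 / Q) ^ 2) = m * (n * δ) / (Q : ℝ) ^ 2 := by
      field_simp
    rw [h1, le_div_iff₀ (by positivity)]
    exact hm1)
  refine ⟨n * m, F + s * ℓ', ?_, ?_, ιu × Fin m, inferInstance, ⟨⟨j2.some, ⟨0, hmpos⟩⟩⟩,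
    fun p => (if (τ p).2 then T (τ p).1 else []) ++ u p.1, ?_, ?_, ?_⟩
  · push_cast
    have h1 : (n : ℝ) * m ≤ n * (2 * ((M : ℝ) + n) * (Q : ℝ) ^ 2 / (n * δ) + 1) := by gcongr
    refine h1.trans ?_
    have h2 : (n : ℝ) * (2 * ((M : ℝ) + n) * (Q : ℝ) ^ 2 / (n * δ) + 1) =
        2 * ((M : ℝ) + n) * (Q : ℝ) ^ 2 / δ + n := by
      field_simp
    rw [h2]
    have h3 : 2 * ((M : ℝ) + n) * (Q : ℝ) ^ 2 / δ ≤ 40 * (Q : ℝ) ^ 2 * W := by
      rw [div_le_iff₀ hδpos]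
      have h4 : 2 * ((M : ℝ) + n) * (Q : ℝ) ^ 2 ≤ 2 * (W + W) * (Q : ℝ) ^ 2 := by gcongr
      have h5 : 40 * (Q : ℝ) ^ 2 * W * (1 / 10) ≤ 40 * (Q : ℝ) ^ 2 * W * δ := by gcongr
      nlinarith
    have h4 : W ≤ (Q : ℝ) ^ 2 * W := by
      have : (1 : ℝ) ≤ (Q : ℝ) ^ 2 := by nlinarith
      nlinarith
    linarith
  · push_cast
    rw [hsr]
    gcongr
  · rw [Fintype.card_prod, Fintype.card_fin]
  · intro p
    rw [List.length_append]
    have h1 : (u p.1).length ≤ s * ℓ' :=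
      (length_flatMap_le y s hy2 _).trans (Nat.mul_le_mul_left s (hv2 p.1))
    by_cases hb : (τ p).2 = true
    · rw [if_pos hb]
      exact Nat.add_le_add (hT2 _) h1
    · rw [if_neg hb, List.length_nil]
      omega
  · intro P hP hPx
    have h1 := hτ P hP (by
      by_cases h2 : (N : ℝ) / D ≤ act P (fun a : α => [a])
      · left
        refine le_trans ?_ (hT3 P hP h2)
        rw [← hMdef]
        nlinarith
      · right
        push Not at h2
        have h3 := hy3 P hP (by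
          have : (1 : ℝ) ≤ act P (fun a : α => [a]) := hx.trans hPx
          exact_mod_cast this) h2.le
        have h4 := hv3 (fun w => P (w.flatMap y)) (hP.flatMap y) (by
          have h5 : act (fun w => P (w.flatMap y)) (fun c : κ => [c]) = act P y := by
            simp [act]
          rw [h5]
          refine le_trans ?_ h3
          push_cast
          refine mul_le_mul_of_nonneg_left hPx ?_
          linarith)
        exact h4)
    refine le_trans (le_of_eq ?_) h1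
    rw [Fintype.card_prod, Fintype.card_fin]
    push_cast
    ring

end Pool.Agent.helper7.Ucode
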